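import Mathlib

/-!
Determinants of values of polynomials, and linear relations from vanishing minors.
-/

open Polynomial Finset

namespace Pool.Agent.Lib.Pc2475b

/-- Determinants of values of polynomials are divisible by the Vandermonde product. -/
theorem vandermonde_dvd_det {S : Type*} [CommRing S] {D : ℕ} (x : Fin D → S)
    (g : Fin D → S[X]) :
    (∏ i : Fin D, ∏ j ∈ Ioi i, (x j - x i)) ∣
      (Matrix.of fun i j => (g j).eval (x i)).det := by
  classical
  nontriviality S
  set ω : S[X] := ∏ i, (X - C (x i)) with hω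
  have hmon : ω.Monic := monic_prod_of_monic _ _ (fun i _ => monic_X_sub_C _)
  have hdeg : ω.natDegree = D := by
    rw [hω, natDegree_prod_of_monic _ _ (fun i _ => monic_X_sub_C _)]
    simp
  have hroot : ∀ i, ω.eval (x i) = 0 := by
    intro i
    rw [hω, eval_prod]
    exact Finset.prod_eq_zero (Finset.mem_univ i) (by simp)
  have hval : ∀ i j, (g j).eval (x i) = (g j %ₘ ω).eval (x i) := by
    intro i j
    conv_lhs => rw [← modByMonic_add_div (g j) ω]
    simp [hroot]
  have hM : (Matrix.of fun i j => (g j).eval (x i)) = Matrix.vandermonde x *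
      (Matrix.of fun (k : Fin D) (j : Fin D) => (g j %ₘ ω).coeff k) := by
    ext i j
    rw [Matrix.mul_apply, Matrix.of_apply, hval]
    have hlt : (g j %ₘ ω).natDegree < D := by
      have h1 : ω ≠ 1 := by
        intro h
        rw [h] at hdeg
        have := i.2
        simp at hdeg
        omega
      have := natDegree_modByMonic_lt (g j) hmon h1
      omega
    rw [eval_eq_sum_range' hlt, Finset.sum_range]
    apply Finset.sum_congr rfl
    intro k _
    simp [Matrix.vandermonde_apply, mul_comm]
  rw [hM, Matrix.det_mul, Matrix.det_vandermonde]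
  exact Dvd.intro _ rfl

theorem pow_dvd_vandermonde {S : Type*} [CommRing S] {D : ℕ} (x : Fin D → S) (π : S)
    (h : ∀ i j, π ∣ x j - x i) :
    π ^ (D * (D - 1) / 2) ∣ ∏ i : Fin D, ∏ j ∈ Ioi i, (x j - x i) := by
  have h1 : (∏ i : Fin D, ∏ j ∈ Ioi i, π) ∣ ∏ i : Fin D, ∏ j ∈ Ioi i, (x j - x i) :=
    Finset.prod_dvd_prod_of_dvd _ _
      (fun i _ => Finset.prod_dvd_prod_of_dvd _ _ (fun j _ => h i j))
  have h2 : (∏ i : Fin D, ∏ j ∈ Ioi i, π) = π ^ (D * (D - 1) / 2) := by
    simp only [Finset.prod_const, Fin.card_Ioi]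
    rw [Finset.prod_pow_eq_pow_sum]
    congr 1
    rw [Fin.sum_univ_eq_sum_range (fun i => D - 1 - i) D, Finset.sum_range_reflect (fun i => i) D,
      Finset.sum_range_id]
  rwa [h2] at h1

theorem abs_det_le {D : ℕ} (M : Matrix (Fin D) (Fin D) ℤ) (b : Fin D → ℤ)
    (h : ∀ i j, |M i j| ≤ b j) : |M.det| ≤ (D.factorial : ℤ) * ∏ j, b j := by
  rw [Matrix.det_apply]
  calc |∑ σ : Equiv.Perm (Fin D), Equiv.Perm.sign σ • ∏ i, M (σ i) i|
      ≤ ∑ σ : Equiv.Perm (Fin D), |Equiv.Perm.sign σ • ∏ i, M (σ i) i| :=
        Finset.abs_sum_le_sum_abs _ _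
    _ ≤ ∑ σ : Equiv.Perm (Fin D), ∏ j, b j := by
        apply Finset.sum_le_sum
        intro σ _
        have : |Equiv.Perm.sign σ • ∏ i, M (σ i) i| = |∏ i, M (σ i) i| := by
          rcases Int.units_eq_one_or (Equiv.Perm.sign σ) with h | h <;> simp [h]
        rw [this, Finset.abs_prod]
        exact Finset.prod_le_prod (fun i _ => abs_nonneg _) (fun i _ => h _ _)
    _ = (D.factorial : ℤ) * ∏ j, b j := by
        simp [Finset.sum_const, Fintype.card_perm]

/-- If all maximal minors of a family of rows vanish, there is a nontrivial linear relation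
between the columns. -/
theorem exists_relation {K : Type*} [Field K] {ι : Type*} {D : ℕ} (M : ι → Fin D → K)
    (h : ∀ f : Fin D → ι, (Matrix.of fun i j => M (f i) j).det = 0) :
    ∃ c : Fin D → K, c ≠ 0 ∧ ∀ t, ∑ j, M t j * c j = 0 := by
  classical
  have hlt : Submodule.span K (Set.range M) < ⊤ := by
    rw [lt_top_iff_ne_top]
    intro htop
    obtain ⟨f, hf, hspan, hli⟩ := Submodule.exists_fun_fin_finrank_span_eq K (Set.range M)
    have hfr : Module.finrank K (Submodule.span K (Set.range M)) = D := by
      rw [htop]; simp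
    choose g hg using hf
    let e : Fin D ≃ Fin (Module.finrank K (Submodule.span K (Set.range M))) := finCongr hfr.symm
    have hfun : (fun i : Fin D => M (g (e i))) = f ∘ e := by
      funext i
      simp [hg]
    have hli' : LinearIndependent K (fun i : Fin D => M (g (e i))) := by
      rw [hfun]
      exact hli.comp e e.injective
    have hdet := h (fun i => g (e i))
    have hu : IsUnit (Matrix.of fun i j => M (g (e i)) j) := by
      rw [← Matrix.linearIndependent_rows_iff_isUnit]
      exact hli'
    rw [Matrix.isUnit_iff_isUnit_det, hdet] at hu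
    exact not_isUnit_zero hu
  obtain ⟨f, hf0, hf⟩ := Submodule.exists_le_ker_of_lt_top _ hlt
  refine ⟨fun j => f (Pi.single j 1), ?_, ?_⟩
  · intro hc
    apply hf0
    apply LinearMap.pi_ext'
    intro j
    ext
    simpa using congrFun hc j
  · intro t
    have h1 : f (M t) = 0 := hf (Submodule.subset_span ⟨t, rfl⟩)
    rw [← h1]
    conv_rhs => rw [show M t = ∑ j, M t j • (Pi.single j (1 : K) : Fin D → K) from by
      ext i; simp [Finset.sum_apply, Pi.single_apply]]
    simp [map_sum]

end Pool.Agent.Lib.Pc2475b
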