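import Mathlib

/-!
Simultaneous polynomial interpolation of coprime factorisations over a local domain.
-/

open Polynomial Finset

namespace Pool.Agent.Lib.Pc2475b

theorem isCoprime_of_map {S k : Type*} [CommRing S] [Field k] (φ : S →+* k) [IsLocalHom φ]
    {A B : S[X]} (hA : A.Monic) (hB : B.Monic) (h : IsCoprime (A.map φ) (B.map φ)) :
    IsCoprime A B := by
  rw [← isUnit_resultant_iff_isCoprime hA]
  rw [← isUnit_resultant_iff_isCoprime (hA.map φ), hA.natDegree_map, hB.natDegree_map,
    resultant_map_map] at h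
  exact isUnit_of_map_unit φ _ h

theorem exists_eq_mul_of_coprime {S : Type*} [CommRing S] [Nontrivial S]
    {A B x y E : S[X]} {c : S}
    (hA : A.Monic) (hAB : IsCoprime A B) (hx : x.degree < A.degree)
    (h : x * B + A * y = C c * E) : ∃ α : S[X], α.degree < A.degree ∧ x = C c * α := by
  obtain ⟨U, V, hUV⟩ := hAB
  refine ⟨(V * E) %ₘ A, degree_modByMonic_lt _ hA, ?_⟩
  have h1 : x = A * (x * U - V * y) + C c * (V * E) := by
    calc x = x * (U * A + V * B) := by rw [hUV, mul_one]
      _ = A * (x * U - V * y) + V * (x * B + A * y) := by ring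
      _ = A * (x * U - V * y) + C c * (V * E) := by rw [h]; ring
  have h2 : x %ₘ A = x := (modByMonic_eq_self_iff hA).2 hx
  have h3 : (A * (x * U - V * y) + C c * (V * E)) %ₘ A = C c * ((V * E) %ₘ A) := by
    rw [add_modByMonic, (modByMonic_eq_zero_iff_dvd hA).2 (dvd_mul_right _ _), zero_add,
      ← smul_eq_C_mul, smul_modByMonic, smul_eq_C_mul]
  rw [← h3, ← h1, h2]

theorem exists_mul_of_map_eval_eq_zero {S : Type*} [CommRing S] (P : S[X][X]) (τ : S)
    (h : P.map (evalRingHom τ) = 0) : ∃ E : S[X][X], P = C (X - C τ) * E := by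
  have : (C (X - C τ) : S[X][X]) ∣ P := by
    rw [C_dvd_iff_dvd_coeff]
    intro i
    rw [dvd_iff_isRoot, IsRoot.def]
    have := congrArg (fun q => q.coeff i) h
    simpa using this
  obtain ⟨E, hE⟩ := this
  exact ⟨E, hE⟩

theorem interp {S k : Type*} [CommRing S] [IsDomain S] [Field k] (φ : S →+* k) [IsLocalHom φ]
    (R : S[X][X]) (D : ℕ) (t : ℕ → S) (A B : ℕ → S[X]) (a b : ℕ) (A' B' : k[X])
    (hcop : IsCoprime A' B')
    (ht : ∀ i < D, ∀ j < D, φ (t i) = φ (t j))
    (htinj : ∀ i < D, ∀ j < D, i ≠ j → t i ≠ t j)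
    (hA : ∀ i < D, (A i).Monic ∧ (A i).natDegree = a ∧ (A i).map φ = A')
    (hB : ∀ i < D, (B i).Monic ∧ (B i).natDegree = b ∧ (B i).map φ = B')
    (hR : ∀ i < D, R.map (evalRingHom (t i)) = A i * B i) :
    ∀ m, 0 < m → m ≤ D → ∃ P Q E : S[X][X], P.Monic ∧ P.natDegree = a ∧ Q.Monic ∧
      Q.natDegree = b ∧ R = P * Q + C (∏ i ∈ range m, (X - C (t i))) * E ∧
      ∀ i < m, P.map (evalRingHom (t i)) = A i ∧ Q.map (evalRingHom (t i)) = B i := by
  have hmapC : ∀ (τ : S) (F : S[X]), ((F.map C : S[X][X])).map (evalRingHom τ) = F := by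
    intro τ F
    rw [Polynomial.map_map]
    have : (evalRingHom τ).comp (C : S →+* S[X]) = RingHom.id S := by
      ext x; simp
    rw [this, Polynomial.map_id]
  intro m hm
  induction m, hm using Nat.le_induction with
  | base =>
    intro hD
    have h0 : 0 < D := hD
    obtain ⟨hA1, hA2, hA3⟩ := hA 0 h0
    obtain ⟨hB1, hB2, hB3⟩ := hB 0 h0
    obtain ⟨E, hE⟩ := exists_mul_of_map_eval_eq_zero
      (R - (A 0).map C * (B 0).map C) (t 0) (by
        rw [Polynomial.map_sub, Polynomial.map_mul, hmapC, hmapC, hR 0 h0, sub_self])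
    refine ⟨(A 0).map C, (B 0).map C, E, hA1.map _, ?_, hB1.map _, ?_, ?_, ?_⟩
    · rw [hA1.natDegree_map, hA2]
    · rw [hB1.natDegree_map, hB2]
    · simp only [range_one, prod_singleton]
      rw [← hE]; ring
    · intro i hi
      have : i = 0 := by omega
      subst this
      exact ⟨hmapC _ _, hmapC _ _⟩
  | succ m hm ih =>
    intro hD
    obtain ⟨P, Q, E, hP, hPa, hQ, hQb, hRE, hev⟩ := ih (by omega)
    have hmD : m < D := hD
    have h0D : 0 < D := by omega
    have h0m : 0 < m := hm
    set τ := t m with hτ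
    obtain ⟨hA1, hA2, hA3⟩ := hA m hmD
    obtain ⟨hB1, hB2, hB3⟩ := hB m hmD
    set ω : S[X] := ∏ i ∈ range m, (X - C (t i)) with hω
    set c : S := ω.eval τ with hc
    have hc0 : c ≠ 0 := by
      rw [hc, hω, eval_prod, Finset.prod_ne_zero_iff]
      intro i hi
      rw [Finset.mem_range] at hi
      simp only [eval_sub, eval_X, eval_C]
      exact sub_ne_zero.2 (htinj m hmD i (by omega) (by omega))
    have hωi : ∀ i < m, ω.eval (t i) = 0 := by
      intro i hi
      rw [hω, eval_prod]
      exact Finset.prod_eq_zero (Finset.mem_range.2 hi) (by simp)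
    have hcomp : φ.comp (evalRingHom τ) = φ.comp (evalRingHom (t 0)) := by
      apply Polynomial.ringHom_ext
      · intro x; simp
      · simp [hτ, ht m hmD 0 h0D]
    have hPmod : (P.map (evalRingHom τ)).map φ = A' := by
      rw [Polynomial.map_map, hcomp, ← Polynomial.map_map, (hev 0 h0m).1, (hA 0 h0D).2.2]
    have hcop1 : IsCoprime (P.map (evalRingHom τ)) (B m) := by
      apply isCoprime_of_map φ (hP.map _) hB1
      rw [hPmod, hB3]; exact hcop
    have hPm : (P.map (evalRingHom τ)).Monic := hP.map _
    have hQm : (Q.map (evalRingHom τ)).Monic := hQ.map _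
    have hPdeg : (P.map (evalRingHom τ)).degree = (A m).degree := by
      rw [degree_eq_natDegree hPm.ne_zero, degree_eq_natDegree hA1.ne_zero, hP.natDegree_map,
        hPa, hA2]
    have hQdeg : (Q.map (evalRingHom τ)).degree = (B m).degree := by
      rw [degree_eq_natDegree hQm.ne_zero, degree_eq_natDegree hB1.ne_zero, hQ.natDegree_map,
        hQb, hB2]
    have hXdeg : (A m - P.map (evalRingHom τ)).degree < (P.map (evalRingHom τ)).degree := by
      rw [hPdeg]
      exact degree_sub_lt_left hPdeg.symm hA1.ne_zero (by rw [hA1.leadingCoeff, hPm.leadingCoeff])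
    have hYdeg : (B m - Q.map (evalRingHom τ)).degree < (B m).degree :=
      degree_sub_lt_left hQdeg.symm hB1.ne_zero (by rw [hB1.leadingCoeff, hQm.leadingCoeff])
    have hRτ : A m * B m = P.map (evalRingHom τ) * Q.map (evalRingHom τ) +
        C c * E.map (evalRingHom τ) := by
      rw [← hR m hmD, hRE, Polynomial.map_add, Polynomial.map_mul, Polynomial.map_mul,
        Polynomial.map_C]
      rfl
    have hid : (A m - P.map (evalRingHom τ)) * B m +
        P.map (evalRingHom τ) * (B m - Q.map (evalRingHom τ)) =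
        C c * E.map (evalRingHom τ) := by
      linear_combination hRτ
    obtain ⟨α, hα, hXα⟩ := exists_eq_mul_of_coprime hPm hcop1 hXdeg hid
    obtain ⟨β, hβ, hYβ⟩ := exists_eq_mul_of_coprime (x := B m - Q.map (evalRingHom τ))
      (y := A m - P.map (evalRingHom τ)) (E := E.map (evalRingHom τ)) (c := c)
      hB1 hcop1.symm hYdeg (by linear_combination hid)
    -- the new cofactor
    set E2 : S[X][X] := E - α.map C * Q - P * β.map C - C ω * α.map C * β.map C with hE2
    have hE2z : E2.map (evalRingHom τ) = 0 := by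
      have h1 : C c * E2.map (evalRingHom τ) = 0 := by
        rw [hE2]
        simp only [Polynomial.map_sub, Polynomial.map_mul, hmapC, Polynomial.map_C]
        have h2 : (evalRingHom τ) ω = c := rfl
        rw [h2]
        have e1 := hXα
        have e2 := hYβ
        linear_combination (-1 : S[X]) * hid + (B m) * e1 + P.map (evalRingHom τ) * e2 +
          (C c * α) * e2
      rcases mul_eq_zero.1 h1 with h | h
      · exact absurd (C_eq_zero.1 h) hc0
      · exact h
    obtain ⟨E3, hE3⟩ := exists_mul_of_map_eval_eq_zero E2 τ hE2z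
    have hdegα : (C ω * (α.map C : S[X][X])).degree < P.degree := by
      have h1 : (C ω * (α.map C : S[X][X])).degree ≤ (α.map C : S[X][X]).degree := by
        calc _ ≤ (C ω : S[X][X]).degree + (α.map C : S[X][X]).degree := degree_mul_le _ _
          _ ≤ 0 + (α.map C : S[X][X]).degree := by gcongr; exact degree_C_le
          _ = _ := zero_add _
      have h2 : (α.map C : S[X][X]).degree ≤ α.degree := degree_map_le
      have h3 : (P.map (evalRingHom τ)).degree = P.degree := hP.degree_map _
      rw [← h3]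
      exact (h1.trans h2).trans_lt hα
    have hdegβ : (C ω * (β.map C : S[X][X])).degree < Q.degree := by
      have h1 : (C ω * (β.map C : S[X][X])).degree ≤ (β.map C : S[X][X]).degree := by
        calc _ ≤ (C ω : S[X][X]).degree + (β.map C : S[X][X]).degree := degree_mul_le _ _
          _ ≤ 0 + (β.map C : S[X][X]).degree := by gcongr; exact degree_C_le
          _ = _ := zero_add _
      have h2 : (β.map C : S[X][X]).degree ≤ β.degree := degree_map_le
      have h3 : (Q.map (evalRingHom τ)).degree = Q.degree := hQ.degree_map _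
      rw [← h3, hQdeg]
      exact (h1.trans h2).trans_lt hβ
    refine ⟨P + C ω * α.map C, Q + C ω * β.map C, E3, hP.add_of_left hdegα, ?_,
      hQ.add_of_left hdegβ, ?_, ?_, ?_⟩
    · rw [natDegree_add_eq_left_of_degree_lt hdegα, hPa]
    · rw [natDegree_add_eq_left_of_degree_lt hdegβ, hQb]
    · rw [Finset.prod_range_succ, ← hω, C_mul, mul_assoc, ← hτ, ← hE3, hE2, hRE]
      ring
    · intro i hi
      rw [Polynomial.map_add, Polynomial.map_add, Polynomial.map_mul, Polynomial.map_mul,
        hmapC, hmapC, Polynomial.map_C]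
      rcases Nat.lt_succ_iff_lt_or_eq.1 hi with hi | hi
      · have : (evalRingHom (t i)) ω = 0 := hωi i hi
        rw [this, C_0, zero_mul, zero_mul, add_zero, add_zero]
        exact hev i hi
      · subst hi
        have : (evalRingHom τ) ω = c := rfl
        rw [← hτ, this, ← hXα, ← hYβ]
        constructor <;> ring

end Pool.Agent.Lib.Pc2475b
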