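import Mathlib
import Pool.Agent.Lib.Pc2475b.Det
import Pool.Agent.Lib.Pc2475b.Interp

/-!
The determinant step: in one residue class the coefficients of a factor satisfy a linear relation
with polynomial coefficients of small degree.
-/

open Polynomial Finset

namespace Pool.Agent.Lib.Pc2475b

theorem isLocalHom_toZMod (p : ℕ) [hp : Fact p.Prime] :
    IsLocalHom (PadicInt.toZMod : ℤ_[p] →+* ZMod p) := by
  constructor
  intro a ha
  by_contra h
  have h1 : a ∈ IsLocalRing.maximalIdeal ℤ_[p] := (IsLocalRing.mem_maximalIdeal a).2 h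
  rw [← PadicInt.ker_toZMod, RingHom.mem_ker] at h1
  rw [h1] at ha
  exact not_isUnit_zero ha

theorem eval_ofFn' {K : Type*} [CommRing K] [DecidableEq K] (n : ℕ) (v : Fin (n + 1) → K) (x : K) :
    (ofFn (n + 1) v).eval x = ∑ i : Fin (n + 1), v i * x ^ (i : ℕ) := by
  rw [eval_eq_sum_range' (ofFn_natDegree_lt (by omega) v), Finset.sum_range]
  apply Finset.sum_congr rfl
  intro i _
  rw [ofFn_coeff_eq_val_of_lt v i.2]

theorem class_relation (p : ℕ) [hp : Fact p.Prime] (R : ℤ[X][X]) (S : Finset ℤ) (A B : ℤ → ℤ[X])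
    (a b : ℕ) (A' B' : (ZMod p)[X]) (hcop : IsCoprime A' B')
    (hS : ∀ s ∈ S, ∀ t ∈ S, (s : ZMod p) = t)
    (hA : ∀ t ∈ S, (A t).Monic ∧ (A t).natDegree = a ∧ (A t).map (Int.castRingHom (ZMod p)) = A')
    (hB : ∀ t ∈ S, (B t).Monic ∧ (B t).natDegree = b ∧ (B t).map (Int.castRingHom (ZMod p)) = B')
    (hR : ∀ t ∈ S, R.map (evalRingHom t) = A t * B t)
    (N Y : ℤ) (hN : ∀ t ∈ S, |t| ≤ N) (i₀ : ℕ) (hY : ∀ t ∈ S, |(A t).coeff i₀| ≤ Y) (m : ℕ)
    (hsize : ((2 * (m + 1)).factorial : ℤ) * (N ^ (m * (m + 1)) * Y ^ (m + 1)) <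
      (p : ℤ) ^ ((m + 1) * (2 * m + 1))) :
    ∃ u v : ℚ[X], (u ≠ 0 ∨ v ≠ 0) ∧ u.natDegree ≤ m ∧ v.natDegree ≤ m ∧
      ∀ t ∈ S, u.eval (t : ℚ) + v.eval (t : ℚ) * ((A t).coeff i₀ : ℚ) = 0 := by
  classical
  have := isLocalHom_toZMod p
  set D := 2 * (m + 1) with hD
  let e : Fin 2 × Fin (m + 1) ≃ Fin D := finProdFinEquiv
  let MZ : S → Fin D → ℤ := fun t j =>
    (t : ℤ) ^ ((e.symm j).2 : ℕ) * ((A t).coeff i₀) ^ ((e.symm j).1 : ℕ)
  have hdetZ : ∀ f : Fin D → S, (Matrix.of fun i j => MZ (f i) j).det = 0 := by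
    intro f
    by_cases hf : Function.Injective f
    swap
    · rw [Function.Injective] at hf
      push Not at hf
      obtain ⟨i, j, hij, hne⟩ := hf
      apply Matrix.det_zero_of_row_eq hne
      funext k
      simp [hij]
    -- the injective case
    let φ : ℤ_[p] →+* ZMod p := PadicInt.toZMod
    let ι : ℤ →+* ℤ_[p] := Int.castRingHom ℤ_[p]
    let tt : ℕ → ℤ := fun n => if h : n < D then ((f ⟨n, h⟩ : S) : ℤ) else 0
    have htt : ∀ n (h : n < D), tt n = (f ⟨n, h⟩ : ℤ) := fun n h => by simp [tt, h]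
    have httS : ∀ n, n < D → tt n ∈ S := fun n h => by rw [htt n h]; exact (f ⟨n, h⟩).2
    have hφι : φ.comp ι = Int.castRingHom (ZMod p) := RingHom.ext_int _ _
    have hint : ∀ x y : ℤ, ι x = ι y → x = y := by
      intro x y h
      have : ((x : ℤ_[p])) = (y : ℤ_[p]) := h
      exact_mod_cast this
    have hRev : ∀ t : ℤ, (R.map (mapRingHom ι)).map (evalRingHom (ι t)) =
        (R.map (evalRingHom t)).map ι := by
      intro t
      rw [Polynomial.map_map, Polynomial.map_map]
      congr 1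
      apply Polynomial.ringHom_ext
      · intro x; simp
      · simp
    have hmain := interp φ (R.map (mapRingHom ι)) D (fun n => ι (tt n))
      (fun n => (A (tt n)).map ι) (fun n => (B (tt n)).map ι) a b A' B' hcop
      (by
        intro i hi j hj
        have h1 : ∀ x : ℤ, φ (ι x) = (x : ZMod p) := fun x => by
          simp [φ, ι]
        show φ (ι (tt i)) = φ (ι (tt j))
        rw [h1, h1]
        exact hS _ (httS i hi) _ (httS j hj))
      (by
        intro i hi j hj hij h
        have h1 := hint _ _ h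
        rw [htt i hi, htt j hj] at h1
        have h2 : f ⟨i, hi⟩ = f ⟨j, hj⟩ := Subtype.ext h1
        have h3 := hf h2
        simp only [Fin.mk.injEq] at h3
        exact hij h3)
      (by
        intro i hi
        obtain ⟨h1, h2, h3⟩ := hA _ (httS i hi)
        refine ⟨h1.map _, ?_, ?_⟩
        · simp only [h1.natDegree_map, h2]
        · simp only [Polynomial.map_map, hφι, h3])
      (by
        intro i hi
        obtain ⟨h1, h2, h3⟩ := hB _ (httS i hi)
        refine ⟨h1.map _, ?_, ?_⟩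
        · simp only [h1.natDegree_map, h2]
        · simp only [Polynomial.map_map, hφι, h3])
      (by
        intro i hi
        rw [hRev, hR _ (httS i hi), Polynomial.map_mul])
      D (by omega) le_rfl
    obtain ⟨P, Q, E, _, _, _, _, _, hev⟩ := hmain
    -- the coefficient polynomial
    set y : ℤ_[p][X] := P.coeff i₀ with hy
    have hyev : ∀ n (h : n < D), y.eval (ι (tt n)) = ι ((A (tt n)).coeff i₀) := by
      intro n h
      have h1 := (hev n h).1
      have h2 := congrArg (fun q => q.coeff i₀) h1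
      simpa using h2
    let g : Fin D → ℤ_[p][X] := fun j => X ^ ((e.symm j).2 : ℕ) * y ^ ((e.symm j).1 : ℕ)
    let x : Fin D → ℤ_[p] := fun i => ι (f i : ℤ)
    have hdvd1 := vandermonde_dvd_det x g
    have hdvd2 := pow_dvd_vandermonde x (p : ℤ_[p]) (by
      intro i j
      have h1 : ((f j : ℤ) : ZMod p) = ((f i : ℤ) : ZMod p) := hS _ (f j).2 _ (f i).2
      have h2 : (p : ℤ) ∣ (f j : ℤ) - (f i : ℤ) := (ZMod.intCast_eq_intCast_iff_dvd_sub _ _ _).1 h1.symm
      obtain ⟨c, hc⟩ := h2
      refine ⟨ι c, ?_⟩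
      have h3 : x j - x i = ι ((f j : ℤ) - (f i : ℤ)) := by simp [x]
      rw [h3, hc, map_mul]
      simp)
    have hmat : (Matrix.of fun i j => (g j).eval (x i)) =
        ι.mapMatrix (Matrix.of fun i j => MZ (f i) j) := by
      ext i j
      have h1 := hyev i i.2
      rw [htt i i.2] at h1
      simp only [Matrix.of_apply, g, x, MZ, eval_mul, eval_pow, eval_X, RingHom.mapMatrix_apply,
        Matrix.map_apply, map_mul, map_pow]
      rw [h1]
    rw [hmat, ← RingHom.map_det] at hdvd1
    have hdvd3 : (p : ℤ) ^ (D * (D - 1) / 2) ∣ (Matrix.of fun i j => MZ (f i) j).det := by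
      have := hdvd2.trans hdvd1
      exact (PadicInt.pow_p_dvd_int_iff _ _).1 this
    have hexp : D * (D - 1) / 2 = (m + 1) * (2 * m + 1) := by
      rw [hD]
      have : 2 * (m + 1) * (2 * (m + 1) - 1) = 2 * ((m + 1) * (2 * m + 1)) := by
        have : 2 * (m + 1) - 1 = 2 * m + 1 := by omega
        rw [this]; ring
      rw [this, Nat.mul_div_cancel_left _ (by norm_num)]
    rw [hexp] at hdvd3
    apply Int.eq_zero_of_abs_lt_dvd hdvd3
    -- size of the determinant
    have hN0 : 0 ≤ N := (abs_nonneg _).trans (hN _ (f ⟨0, by omega⟩).2)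
    have hY0 : 0 ≤ Y := (abs_nonneg _).trans (hY _ (f ⟨0, by omega⟩).2)
    have hle := abs_det_le (Matrix.of fun i j => MZ (f i) j)
      (fun j => N ^ ((e.symm j).2 : ℕ) * Y ^ ((e.symm j).1 : ℕ)) (by
        intro i j
        simp only [Matrix.of_apply, MZ, abs_mul, abs_pow]
        have h1 := hN _ (f i).2
        have h2 := hY _ (f i).2
        gcongr)
    refine hle.trans_lt (lt_of_eq_of_lt ?_ hsize)
    congr 1
    rw [Fintype.prod_equiv e.symm _ (fun q : Fin 2 × Fin (m + 1) => N ^ (q.2 : ℕ) * Y ^ (q.1 : ℕ))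
      (fun j => rfl)]
    rw [Fintype.prod_prod_type, Fin.prod_univ_two]
    simp only [Fin.val_zero, pow_zero, mul_one, Fin.val_one, pow_one, Finset.prod_mul_distrib,
      Finset.prod_const, Finset.card_univ, Fintype.card_fin, Finset.prod_pow_eq_pow_sum]
    rw [← mul_assoc, ← pow_add]
    congr 2
    rw [Fin.sum_univ_eq_sum_range (fun i => i) (m + 1)]
    have := Finset.sum_range_id_mul_two (m + 1)
    simp only [Nat.add_sub_cancel] at this
    nlinarith
  -- rational relation
  let MQ : S → Fin D → ℚ := fun t j => (MZ t j : ℚ)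
  obtain ⟨c, hc0, hc⟩ := exists_relation MQ (by
    intro f
    have h1 : (Matrix.of fun i j => MQ (f i) j) =
        (Int.castRingHom ℚ).mapMatrix (Matrix.of fun i j => MZ (f i) j) := by
      ext i j; simp [MQ]
    rw [h1, ← RingHom.map_det, hdetZ f, map_zero])
  refine ⟨ofFn (m + 1) (fun i => c (e (0, i))), ofFn (m + 1) (fun i => c (e (1, i))), ?_, ?_, ?_, ?_⟩
  · by_contra hcon
    push Not at hcon
    obtain ⟨h1, h2⟩ := hcon
    apply hc0
    funext j
    obtain ⟨⟨q, i⟩, rfl⟩ := e.surjective j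
    have hq : q = 0 ∨ q = 1 := by omega
    rcases hq with rfl | rfl
    · have := congrArg (fun r => r.coeff (i : ℕ)) h1
      simpa [ofFn_coeff_eq_val_of_lt _ i.2] using this
    · have := congrArg (fun r => r.coeff (i : ℕ)) h2
      simpa [ofFn_coeff_eq_val_of_lt _ i.2] using this
  · have := ofFn_natDegree_lt (n := m + 1) (by omega) (fun i => c (e (0, i)))
    omega
  · have := ofFn_natDegree_lt (n := m + 1) (by omega) (fun i => c (e (1, i)))
    omega
  · intro t ht
    have h1 := hc ⟨t, ht⟩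
    rw [eval_ofFn', eval_ofFn']
    rw [← Fintype.sum_equiv e (fun q : Fin 2 × Fin (m + 1) => MQ ⟨t, ht⟩ (e q) * c (e q))
      (fun j => MQ ⟨t, ht⟩ j * c j) (fun q => rfl), Fintype.sum_prod_type, Fin.sum_univ_two] at h1
    rw [← h1, Finset.sum_mul]
    congr 1
    · apply Finset.sum_congr rfl
      intro i _
      simp [MQ, MZ]
      ring
    · apply Finset.sum_congr rfl
      intro i _
      simp [MQ, MZ]
      ring

end Pool.Agent.Lib.Pc2475b
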