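import Mathlib
import Pool.Agent.Lib.Pc2475b.Relation

/-!
If a residue class contains too many reducible specialisations, the generic polynomial factors.
-/

open Polynomial Finset

namespace Pool.Agent.Lib.Pc2475b

theorem factor_poly (S : Finset ℤ) (A : ℤ → ℤ[X]) (a m : ℕ) (ha : 0 < a)
    (hA : ∀ t ∈ S, (A t).Monic ∧ (A t).natDegree = a)
    (hcard : m < #S)
    (hrel : ∀ i : ℕ, ∃ u v : ℚ[X], (u ≠ 0 ∨ v ≠ 0) ∧ u.natDegree ≤ m ∧ v.natDegree ≤ m ∧
      ∀ t ∈ S, u.eval (t : ℚ) + v.eval (t : ℚ) * ((A t).coeff i : ℚ) = 0) :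
    ∃ (V : ℚ[X]) (P : ℚ[X][X]), V ≠ 0 ∧ V.natDegree ≤ a * m ∧ P ≠ 0 ∧ P.natDegree ≤ a ∧
      (∀ i, (P.coeff i).natDegree ≤ a * m) ∧
      ∀ t ∈ S, P.map (evalRingHom (t : ℚ)) = C (V.eval (t : ℚ)) *
        (A t).map (Int.castRingHom ℚ) := by
  classical
  choose u v h0 hu hv hrel using hrel
  have hv0 : ∀ i, v i ≠ 0 := by
    intro i hvi
    have hu0 : u i ≠ 0 := by
      rcases h0 i with h | h
      · exact h
      · exact absurd hvi h
    apply hu0
    apply Polynomial.eq_zero_of_natDegree_lt_card_of_eval_eq_zero' (u i) (S.image (Int.cast : ℤ → ℚ))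
    · intro x hx
      obtain ⟨t, ht, rfl⟩ := Finset.mem_image.1 hx
      have := hrel i t ht
      simpa [hvi] using this
    · rw [Finset.card_image_of_injective _ Int.cast_injective]
      exact (hu i).trans_lt hcard
  set V : ℚ[X] := ∏ i ∈ range a, v i with hV
  have hV0 : V ≠ 0 := Finset.prod_ne_zero_iff.2 fun i _ => hv0 i
  have hVdeg : V.natDegree ≤ a * m := by
    calc V.natDegree ≤ ∑ i ∈ range a, (v i).natDegree := natDegree_prod_le _ _
      _ ≤ ∑ i ∈ range a, m := Finset.sum_le_sum fun i _ => hv i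
      _ = a * m := by simp
  let w : Fin (a + 1) → ℚ[X] := fun i =>
    if (i : ℕ) < a then - (u i * ∏ j ∈ (range a).erase i, v j) else V
  have hwdeg : ∀ i, (w i).natDegree ≤ a * m := by
    intro i
    simp only [w]
    split_ifs with hi
    · rw [natDegree_neg]
      calc (u i * ∏ j ∈ (range a).erase i, v j).natDegree
          ≤ (u i).natDegree + (∏ j ∈ (range a).erase i, v j).natDegree := natDegree_mul_le
        _ ≤ m + ∑ j ∈ (range a).erase i, (v j).natDegree := by
            gcongr
            · exact hu i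
            · exact natDegree_prod_le _ _
        _ ≤ m + ∑ j ∈ (range a).erase i, m := by
            gcongr with j _
            exact hv j
        _ = m + (a - 1) * m := by
            rw [Finset.sum_const, Finset.card_erase_of_mem (Finset.mem_range.2 hi), card_range,
              smul_eq_mul]
        _ = a * m := by
            obtain ⟨a', rfl⟩ : ∃ a', a = a' + 1 := ⟨a - 1, by omega⟩
            simp; ring
    · exact hVdeg
  refine ⟨V, ofFn (a + 1) w, hV0, hVdeg, ?_, ?_, ?_, ?_⟩
  · intro h
    have := congrArg (fun q => q.coeff a) h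
    simp only [coeff_zero] at this
    rw [ofFn_coeff_eq_val_of_lt w (by omega : a < a + 1)] at this
    simp [w] at this
    exact hV0 this
  · have := ofFn_natDegree_lt (n := a + 1) (by omega) w
    omega
  · intro i
    by_cases hi : i < a + 1
    · rw [ofFn_coeff_eq_val_of_lt w hi]
      exact hwdeg _
    · rw [ofFn_coeff_eq_zero_of_ge w (by omega)]
      simp
  · intro t ht
    obtain ⟨hm, hd⟩ := hA t ht
    ext i
    rw [coeff_map, coeff_C_mul, coeff_map]
    by_cases hi : i < a + 1
    · rw [ofFn_coeff_eq_val_of_lt w hi]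
      simp only [w]
      split_ifs with hia
      · have h1 := hrel i t ht
        have h2 : V.eval (t : ℚ) = (v i).eval (t : ℚ) *
            (∏ j ∈ (range a).erase i, v j).eval (t : ℚ) := by
          rw [hV, ← Finset.mul_prod_erase (range a) v (Finset.mem_range.2 hia), eval_mul]
        simp only [coe_evalRingHom, eval_neg, eval_mul, h2, eq_intCast]
        linear_combination (-(∏ j ∈ (range a).erase i, v j).eval (t : ℚ)) * h1
      · have hia' : i = a := by omega
        subst hia'
        have : (A t).coeff i = 1 := by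
          have := hm.coeff_natDegree
          rwa [hd] at this
        rw [this]
        simp
    · rw [ofFn_coeff_eq_zero_of_ge w (by omega)]
      have : (A t).coeff i = 0 := coeff_eq_zero_of_natDegree_lt (by omega)
      rw [this]
      simp

theorem class_card_le (p : ℕ) [hp : Fact p.Prime] (R : ℤ[X][X]) (S : Finset ℤ) (A B : ℤ → ℤ[X])
    (a b d : ℕ) (ha : 0 < a) (hb : 0 < b) (A' B' : (ZMod p)[X]) (hcop : IsCoprime A' B')
    (hRm : R.Monic) (hRn : R.natDegree = a + b) (hRd : ∀ i, (R.coeff i).natDegree ≤ d)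
    (hirr : Irreducible (R.map (mapRingHom (Int.castRingHom ℚ))))
    (hS : ∀ s ∈ S, ∀ t ∈ S, (s : ZMod p) = t)
    (hA : ∀ t ∈ S, (A t).Monic ∧ (A t).natDegree = a ∧ (A t).map (Int.castRingHom (ZMod p)) = A')
    (hB : ∀ t ∈ S, (B t).Monic ∧ (B t).natDegree = b ∧ (B t).map (Int.castRingHom (ZMod p)) = B')
    (hR : ∀ t ∈ S, R.map (evalRingHom t) = A t * B t)
    (N Y : ℤ) (hN : ∀ t ∈ S, |t| ≤ N)
    (hYA : ∀ t ∈ S, ∀ i, |(A t).coeff i| ≤ Y) (hYB : ∀ t ∈ S, ∀ i, |(B t).coeff i| ≤ Y) (m : ℕ)
    (hsize : ((2 * (m + 1)).factorial : ℤ) * (N ^ (m * (m + 1)) * Y ^ (m + 1)) <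
      (p : ℤ) ^ ((m + 1) * (2 * m + 1))) :
    #S ≤ (a + b) * m + d := by
  classical
  by_contra hcon
  push Not at hcon
  have hm : m < #S := by nlinarith
  have hrelA := fun i => class_relation p R S A B a b A' B' hcop hS hA hB hR N Y hN i
    (fun t ht => hYA t ht i) m hsize
  have hrelB := fun i => class_relation p R S B A b a B' A' hcop.symm hS hB hA
    (fun t ht => by rw [hR t ht, mul_comm]) N Y hN i (fun t ht => hYB t ht i) m hsize
  obtain ⟨V, P, hV0, hVd, hP0, hPn, hPd, hPev⟩ :=
    factor_poly S A a m ha (fun t ht => ⟨(hA t ht).1, (hA t ht).2.1⟩) hm hrelA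
  obtain ⟨W, Q, hW0, hWd, hQ0, hQn, hQd, hQev⟩ :=
    factor_poly S B b m hb (fun t ht => ⟨(hB t ht).1, (hB t ht).2.1⟩) hm hrelB
  set RQ : ℚ[X][X] := R.map (mapRingHom (Int.castRingHom ℚ)) with hRQ
  have hRQm : RQ.Monic := hRm.map _
  have hRQn : RQ.natDegree = a + b := by rw [hRQ, hRm.natDegree_map, hRn]
  have hkey : C (V * W) * RQ - P * Q = 0 := by
    ext1 i
    rw [coeff_zero]
    apply Polynomial.eq_zero_of_natDegree_lt_card_of_eval_eq_zero' _ (S.image (Int.cast : ℤ → ℚ))
    · intro x hx
      obtain ⟨t, ht, rfl⟩ := Finset.mem_image.1 hx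
      have h1 : (C (V * W) * RQ - P * Q).map (evalRingHom (t : ℚ)) = 0 := by
        rw [Polynomial.map_sub, Polynomial.map_mul, Polynomial.map_mul, hPev t ht, hQev t ht,
          Polynomial.map_C]
        have h2 : RQ.map (evalRingHom (t : ℚ)) = (R.map (evalRingHom t)).map (Int.castRingHom ℚ) := by
          rw [hRQ, Polynomial.map_map, Polynomial.map_map]
          congr 1
          apply Polynomial.ringHom_ext
          · intro x; simp
          · simp
        rw [h2, hR t ht, Polynomial.map_mul]
        simp only [coe_evalRingHom, eval_mul, C_mul]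
        ring
      have h3 := congrArg (fun q => q.coeff i) h1
      simpa only [coeff_map, coeff_zero, coe_evalRingHom] using h3
    · rw [Finset.card_image_of_injective _ Int.cast_injective]
      refine lt_of_le_of_lt ?_ hcon
      rw [coeff_sub]
      refine (natDegree_sub_le _ _).trans (max_le ?_ ?_)
      · rw [coeff_C_mul]
        refine natDegree_mul_le.trans ?_
        have h1 : (RQ.coeff i).natDegree ≤ d := by
          rw [hRQ, coeff_map]
          exact natDegree_map_le.trans (hRd i)
        have h2 : (V * W).natDegree ≤ a * m + b * m :=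
          natDegree_mul_le.trans (by omega)
        have h3 : (a + b) * m = a * m + b * m := by ring
        omega
      · rw [coeff_mul]
        apply (natDegree_sum_le_of_forall_le _ _ (n := a * m + b * m) _).trans
        · have h3 : (a + b) * m = a * m + b * m := by ring
          omega
        · intro x _
          refine natDegree_mul_le.trans ?_
          have := hPd x.1
          have := hQd x.2
          omega
  have hdvd : RQ ∣ P * Q := ⟨C (V * W), by rw [mul_comm RQ]; exact (sub_eq_zero.1 hkey).symm⟩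
  have hprime : Prime RQ := hirr.prime
  rcases hprime.dvd_or_dvd hdvd with h | h
  · exact hRQm.not_dvd_of_natDegree_lt hP0 (by omega) h
  · exact hRQm.not_dvd_of_natDegree_lt hQ0 (by omega) h

end Pool.Agent.Lib.Pc2475b
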