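import Mathlib

/-!
Naive heights of integer polynomials and the Mahler measure.
-/

open Polynomial Finset

namespace Pool.Agent.Lib.Pc2475b

theorem isometry_intCast : Isometry (Int.castRingHom ℂ) := by
  apply Isometry.of_dist_eq
  intro x y
  simp only [eq_intCast, dist_eq_norm]
  rw [← Int.cast_sub, Complex.norm_intCast]
  rfl

/-- Mahler measure of an integer polynomial. -/
noncomputable def mm (P : ℤ[X]) : ℝ := P.mapMahlerMeasure (Int.castRingHom ℂ)

theorem mm_mul (P Q : ℤ[X]) : mm (P * Q) = mm P * mm Q := mapMahlerMeasure_mul _ _ _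

theorem mm_nonneg (P : ℤ[X]) : 0 ≤ mm P := mapMahlerMeasure_nonneg _ _

theorem one_le_mm {P : ℤ[X]} (hP : P ≠ 0) : 1 ≤ mm P := one_le_mahlerMeasure_of_ne_zero hP

theorem mm_le {P : ℤ[X]} {n : ℕ} (hP : P.natDegree ≤ n) : mm P ≤ (n + 1) * P.supNorm := by
  have h1 : mm P ≤ P.sum fun _ a ↦ ‖a‖ := mapMahlerMeasure_le_sum_norm_coeff _ _ isometry_intCast
  refine h1.trans ?_
  rw [Polynomial.sum_def]
  calc ∑ i ∈ P.support, ‖P.coeff i‖ ≤ ∑ i ∈ P.support, P.supNorm :=
        Finset.sum_le_sum fun i _ => P.le_supNorm i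
    _ = #P.support * P.supNorm := by rw [Finset.sum_const, nsmul_eq_mul]
    _ ≤ (n + 1) * P.supNorm := by
        gcongr
        · exact P.supNorm_nonneg
        · have := P.card_supp_le_succ_natDegree
          have h2 : #P.support ≤ n + 1 := by omega
          exact_mod_cast h2

theorem norm_coeff_le {P : ℤ[X]} {n : ℕ} (hP : P.natDegree ≤ n) (i : ℕ) :
    ‖P.coeff i‖ ≤ 2 ^ n * mm P := by
  have h1 := norm_coeff_le_choose_mul_mapMahlerMeasure (Int.castRingHom ℂ) isometry_intCast i P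
  refine h1.trans ?_
  have h2 : ((P.natDegree.choose i : ℕ) : ℝ) ≤ 2 ^ n := by
    calc ((P.natDegree.choose i : ℕ) : ℝ) ≤ ((2 ^ P.natDegree : ℕ) : ℝ) := by
          exact_mod_cast Nat.choose_le_two_pow _ _
      _ ≤ 2 ^ n := by
          push_cast
          exact pow_le_pow_right₀ (by norm_num) hP
  exact mul_le_mul_of_nonneg_right h2 (mm_nonneg P)

theorem supNorm_le {P : ℤ[X]} {n : ℕ} (hP : P.natDegree ≤ n) : P.supNorm ≤ 2 ^ n * mm P := by
  obtain ⟨i, hi⟩ := P.exists_eq_supNorm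
  rw [hi]
  exact norm_coeff_le hP i

theorem one_le_supNorm {P : ℤ[X]} (hP : P ≠ 0) : 1 ≤ P.supNorm := by
  have h1 := P.le_supNorm P.natDegree
  refine le_trans ?_ h1
  have h2 : P.coeff P.natDegree ≠ 0 := leadingCoeff_ne_zero.2 hP
  rw [Int.norm_eq_abs]
  exact_mod_cast Int.one_le_abs h2

/-- The coefficients of a divisor are controlled by the height of the polynomial. -/
theorem norm_coeff_le_of_mul {A B : ℤ[X]} {n : ℕ} (hAB : A * B ≠ 0) (hn : (A * B).natDegree ≤ n)
    (i : ℕ) : ‖A.coeff i‖ ≤ 2 ^ n * (n + 1) * (A * B).supNorm := by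
  have hA : A ≠ 0 := left_ne_zero_of_mul hAB
  have hB : B ≠ 0 := right_ne_zero_of_mul hAB
  have hAn : A.natDegree ≤ n := by
    rw [natDegree_mul hA hB] at hn; omega
  have h1 := norm_coeff_le hAn i
  have h2 : mm A ≤ mm (A * B) := by
    rw [mm_mul]
    exact le_mul_of_one_le_right (mm_nonneg A) (one_le_mm hB)
  have h3 := mm_le hn
  calc ‖A.coeff i‖ ≤ 2 ^ n * mm A := h1
    _ ≤ 2 ^ n * ((n + 1) * (A * B).supNorm) := by
        gcongr
        exact h2.trans h3
    _ = _ := by ring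

theorem supNorm_le_of_mul {A B : ℤ[X]} {n : ℕ} (hAB : A * B ≠ 0) (hn : (A * B).natDegree ≤ n) :
    A.supNorm ≤ 2 ^ n * (n + 1) * (A * B).supNorm := by
  obtain ⟨i, hi⟩ := A.exists_eq_supNorm
  rw [hi]
  exact norm_coeff_le_of_mul hAB hn i

end Pool.Agent.Lib.Pc2475b
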