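import Mathlib
import Pool.Agent.Lib.Pc2475b.Factor
import Pool.Agent.Lib.Pc2475b.Height

/-!
Counting reducible specialisations modulo one prime.
-/

open Polynomial Finset

namespace Pool.Agent.Lib.Pc2475b

theorem natDegree_det_le {D : ℕ} (M : Matrix (Fin D) (Fin D) ℤ[X]) (d : ℕ)
    (h : ∀ i j, (M i j).natDegree ≤ d) : M.det.natDegree ≤ D * d := by
  rw [Matrix.det_apply]
  apply natDegree_sum_le_of_forall_le
  intro σ _
  have h1 : (Equiv.Perm.sign σ • ∏ i, M (σ i) i).natDegree = (∏ i, M (σ i) i).natDegree := by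
    rcases Int.units_eq_one_or (Equiv.Perm.sign σ) with h | h <;> simp [h]
  rw [h1]
  calc (∏ i, M (σ i) i).natDegree ≤ ∑ i : Fin D, (M (σ i) i).natDegree := natDegree_prod_le _ _
    _ ≤ ∑ i : Fin D, d := Finset.sum_le_sum fun i _ => h _ _
    _ = D * d := by simp

theorem sylvester_entry {S : Type*} [Semiring S] (f g : S[X]) (m n : ℕ) (i j : Fin (m + n)) :
    sylvester f g m n i j = 0 ∨ (∃ k, sylvester f g m n i j = f.coeff k) ∨
      (∃ k, sylvester f g m n i j = g.coeff k) := by
  simp only [sylvester, Matrix.of_apply]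
  induction j using Fin.addCases with
  | left j =>
    simp only [Fin.addCases_left]
    split_ifs
    · exact Or.inr (Or.inr ⟨_, rfl⟩)
    · exact Or.inl rfl
  | right j =>
    simp only [Fin.addCases_right]
    split_ifs
    · exact Or.inr (Or.inl ⟨_, rfl⟩)
    · exact Or.inl rfl

/-- The discriminant-type polynomial. -/
noncomputable def disc (R : ℤ[X][X]) (n : ℕ) : ℤ[X] := R.resultant R.derivative n (n - 1)

theorem natDegree_disc_le (R : ℤ[X][X]) (n d : ℕ) (hRd : ∀ i, (R.coeff i).natDegree ≤ d) :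
    (disc R n).natDegree ≤ (n + (n - 1)) * d := by
  apply natDegree_det_le
  intro i j
  have hder : ∀ k, (R.derivative.coeff k).natDegree ≤ d := by
    intro k
    rw [coeff_derivative]
    have : ((k : ℤ[X]) + 1) = C ((k : ℤ) + 1) := by simp
    rw [this]
    exact (natDegree_mul_C_le _ _).trans (hRd _)
  rcases sylvester_entry R R.derivative n (n - 1) i j with h | ⟨k, h⟩ | ⟨k, h⟩
  · rw [h]; simp
  · rw [h]; exact hRd k
  · rw [h]; exact hder k

theorem disc_eval (R : ℤ[X][X]) (n : ℕ) (t : ℤ) :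
    (disc R n).eval t = (R.map (evalRingHom t)).resultant (R.map (evalRingHom t)).derivative
      n (n - 1) := by
  rw [Polynomial.derivative_map, resultant_map_map]
  rfl

theorem abs_disc_eval_le (R : ℤ[X][X]) (n : ℕ) (hn : 0 < n) (hRn : R.natDegree ≤ n) (t H : ℤ)
    (hH : ∀ i, |(R.coeff i).eval t| ≤ H) :
    |(disc R n).eval t| ≤ ((n + (n - 1)).factorial : ℤ) * ((n : ℤ) * H) ^ (n + (n - 1)) := by
  have hH0 : 0 ≤ H := (abs_nonneg _).trans (hH 0)
  have hn1 : (1 : ℤ) ≤ n := by exact_mod_cast hn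
  rw [disc_eval]
  have := abs_det_le (sylvester (R.map (evalRingHom t)) (R.map (evalRingHom t)).derivative
      n (n - 1)) (fun _ => (n : ℤ) * H) (by
    intro i j
    have hf : ∀ k, |(R.map (evalRingHom t)).coeff k| ≤ H := by
      intro k
      rw [coeff_map]
      exact hH k
    rcases sylvester_entry (R.map (evalRingHom t)) (R.map (evalRingHom t)).derivative
      n (n - 1) i j with h | ⟨k, h⟩ | ⟨k, h⟩
    · rw [h, abs_zero]; positivity
    · rw [h]
      refine (hf k).trans ?_
      nlinarith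
    · rw [h, coeff_derivative]
      by_cases hk : k + 1 ≤ n
      · rw [abs_mul, mul_comm]
        have h1 : |((k : ℤ) + 1)| = (k : ℤ) + 1 := abs_of_nonneg (by positivity)
        rw [h1]
        have h2 : (k : ℤ) + 1 ≤ n := by exact_mod_cast hk
        have h3 := hf (k + 1)
        have h4 := abs_nonneg ((R.map (evalRingHom t)).coeff (k + 1))
        gcongr
      · have : (R.map (evalRingHom t)).coeff (k + 1) = 0 := by
          apply coeff_eq_zero_of_natDegree_lt
          exact (natDegree_map_le.trans hRn).trans_lt (by omega)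
        rw [this, zero_mul, abs_zero]
        positivity)
  refine this.trans (le_of_eq ?_)
  simp

theorem disc_ne_zero (R : ℤ[X][X]) (n : ℕ) (hRm : R.Monic) (hRn : R.natDegree = n)
    (hirr : Irreducible (R.map (mapRingHom (Int.castRingHom ℚ)))) : disc R n ≠ 0 := by
  intro h0
  set RQ : ℚ[X][X] := R.map (mapRingHom (Int.castRingHom ℚ)) with hRQ
  have hRQm : RQ.Monic := hRm.map _
  let K := FractionRing ℚ[X]
  have hirrK : Irreducible (RQ.map (algebraMap ℚ[X] K)) :=
    (Monic.irreducible_iff_irreducible_map_fraction_map hRQm).1 hirr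
  have : CharZero K := by
    have h1 : CharZero ℚ[X] := inferInstance
    exact charZero_of_injective_algebraMap (IsFractionRing.injective ℚ[X] K)
  have hsep : (RQ.map (algebraMap ℚ[X] K)).Separable := hirrK.separable
  have hres := resultant_ne_zero _ _ hsep
  apply hres
  have hnd : (RQ.map (algebraMap ℚ[X] K)).natDegree = n := by
    rw [hRQm.natDegree_map, hRQ, hRm.natDegree_map, hRn]
  have hnd' : (RQ.map (algebraMap ℚ[X] K)).derivative.natDegree = n - 1 := by
    rw [natDegree_derivative, hnd]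
  rw [hnd, hnd', hRQ, Polynomial.map_map, Polynomial.derivative_map, resultant_map_map]
  have : R.resultant R.derivative n (n - 1) = 0 := h0
  rw [this, map_zero]

theorem card_normalizedFactors_le {k : Type*} [Field k] [DecidableEq k] {f : k[X]} (hf : f.Monic) :
    (UniqueFactorizationMonoid.normalizedFactors f).card ≤ f.natDegree := by
  have h1 : (UniqueFactorizationMonoid.normalizedFactors f).prod = f := by
    rw [UniqueFactorizationMonoid.prod_normalizedFactors_eq hf.ne_zero, hf.normalize_eq_self]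
  have h2 : ∀ g ∈ UniqueFactorizationMonoid.normalizedFactors f, 1 ≤ g.natDegree := by
    intro g hg
    exact (UniqueFactorizationMonoid.irreducible_of_normalized_factor g hg).natDegree_pos
  have h3 : (0 : k[X]) ∉ UniqueFactorizationMonoid.normalizedFactors f := by
    intro h
    have := h2 0 h
    simp at this
  conv_rhs => rw [← h1, natDegree_multiset_prod _ h3]
  have := Multiset.card_nsmul_le_sum (s := (UniqueFactorizationMonoid.normalizedFactors f).map
    natDegree) (a := 1) (by
      intro x hx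
      obtain ⟨g, hg, rfl⟩ := Multiset.mem_map.1 hx
      exact h2 g hg)
  simpa using this

theorem count_prime (p : ℕ) [hp : Fact p.Prime] (R : ℤ[X][X]) (n d m : ℕ) (hn : 0 < n)
    (hRm : R.Monic) (hRn : R.natDegree = n) (hRd : ∀ i, (R.coeff i).natDegree ≤ d)
    (hirr : Irreducible (R.map (mapRingHom (Int.castRingHom ℚ))))
    (T : Finset ℤ) (hT1 : ∀ t ∈ T, ¬ Irreducible (R.map (evalRingHom t)))
    (hT2 : ∀ t ∈ T, ¬ (p : ℤ) ∣ (disc R n).eval t)
    (N Y : ℤ) (hN : ∀ t ∈ T, |t| ≤ N)
    (hY : ∀ t ∈ T, ∀ A B : ℤ[X], A * B = R.map (evalRingHom t) → ∀ i, |A.coeff i| ≤ Y)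
    (hsize : ((2 * (m + 1)).factorial : ℤ) * (N ^ (m * (m + 1)) * Y ^ (m + 1)) <
      (p : ℤ) ^ ((m + 1) * (2 * m + 1))) :
    #T ≤ (n * m + d) * 2 ^ n * p := by
  classical
  set c : ℤ →+* ZMod p := Int.castRingHom (ZMod p) with hc
  have hfac : ∀ t, ∃ AB : ℤ[X] × ℤ[X], t ∈ T → AB.1.Monic ∧ AB.2.Monic ∧ 0 < AB.1.natDegree ∧
      0 < AB.2.natDegree ∧ AB.1 * AB.2 = R.map (evalRingHom t) := by
    intro t
    by_cases ht : t ∈ T
    · have h1 := hT1 t ht
      have hm : (R.map (evalRingHom t)).Monic := hRm.map _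
      rw [hm.irreducible_iff_natDegree] at h1
      push Not at h1
      have hne : R.map (evalRingHom t) ≠ 1 := by
        intro h
        have := hRm.natDegree_map (evalRingHom t)
        rw [h, natDegree_one] at this
        omega
      obtain ⟨f, g, hf, hg, hfg, hf0, hg0⟩ := h1 hne
      exact ⟨(f, g), fun _ => ⟨hf, hg, Nat.pos_of_ne_zero hf0, Nat.pos_of_ne_zero hg0, hfg⟩⟩
    · exact ⟨(0, 0), fun h => absurd h ht⟩
  choose AB hAB using hfac
  -- reduction of the specialisations
  have hred : ∀ t s : ℤ, (t : ZMod p) = s →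
      (R.map (evalRingHom t)).map c = (R.map (evalRingHom s)).map c := by
    intro t s hts
    rw [Polynomial.map_map, Polynomial.map_map]
    congr 1
    apply Polynomial.ringHom_ext
    · intro x; simp
    · simpa [hc] using hts
  have hcardZ : #(Finset.univ : Finset (ZMod p)) = p := by
    rw [Finset.card_univ, ZMod.card]
  rw [← hcardZ]
  apply Finset.card_le_mul_card_image_of_maps_to (f := fun t : ℤ => (t : ZMod p))
    (fun t _ => Finset.mem_univ _)
  intro r _
  set F := T.filter (fun t : ℤ => (t : ZMod p) = r) with hF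
  rcases F.eq_empty_or_nonempty with hFe | ⟨t0, ht0⟩
  · rw [hFe]; simp
  have ht0' := (Finset.mem_filter.1 ht0)
  set Rb : (ZMod p)[X] := (R.map (evalRingHom t0)).map c with hRb
  have hRbm : Rb.Monic := (hRm.map _).map _
  have hRbn : Rb.natDegree = n := by
    rw [hRb, (hRm.map _).natDegree_map, hRm.natDegree_map, hRn]
  have hFR : ∀ t ∈ F, (R.map (evalRingHom t)).map c = Rb := by
    intro t ht
    apply hred
    rw [(Finset.mem_filter.1 ht).2, ht0'.2]
  have hABF : ∀ t ∈ F, ((AB t).1.map c) * ((AB t).2.map c) = Rb := by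
    intro t ht
    rw [← Polynomial.map_mul, (hAB t (Finset.mem_filter.1 ht).1).2.2.2.2, hFR t ht]
  -- separability
  have hsepb : ∀ t ∈ F, IsCoprime ((AB t).1.map c) ((AB t).2.map c) := by
    intro t ht
    have hunit : IsUnit (Rb.resultant Rb.derivative n (n - 1)) := by
      rw [isUnit_iff_ne_zero]
      have h1 := hT2 t0 ht0'.1
      rw [disc_eval] at h1
      intro h2
      apply h1
      rw [hRb, Polynomial.derivative_map, resultant_map_map] at h2
      exact (ZMod.intCast_zmod_eq_zero_iff_dvd _ p).1 h2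
    obtain ⟨P, Q, -, -, hPQ⟩ := exists_mul_add_mul_eq_C_resultant Rb Rb.derivative
      (m := n) (n := n - 1) (le_of_eq hRbn)
      (natDegree_derivative_le Rb |>.trans (by rw [hRbn])) (Or.inl hn.ne')
    have hsep : Rb.Separable := by
      obtain ⟨u, hu⟩ := hunit
      refine ⟨C (↑u⁻¹ : ZMod p) * P, C (↑u⁻¹ : ZMod p) * Q, ?_⟩
      have : C (↑u⁻¹ : ZMod p) * P * Rb + C (↑u⁻¹ : ZMod p) * Q * derivative Rb =
          C (↑u⁻¹ : ZMod p) * (Rb * P + Rb.derivative * Q) := by ring
      rw [this, hPQ, ← hu, ← C_mul, Units.inv_mul, C_1]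
    rw [← hABF t ht] at hsep
    exact hsep.isCoprime
  -- second pigeonhole
  have hcard2 : #((UniqueFactorizationMonoid.normalizedFactors Rb).powerset.toFinset) ≤ 2 ^ n := by
    refine (Multiset.toFinset_card_le _).trans ?_
    rw [Multiset.card_powerset]
    apply Nat.pow_le_pow_right (by norm_num)
    rw [← hRbn]
    exact card_normalizedFactors_le hRbm
  refine le_trans ?_ (Nat.mul_le_mul_left (n * m + d) hcard2)
  apply Finset.card_le_mul_card_image_of_maps_to
    (f := fun t : ℤ => UniqueFactorizationMonoid.normalizedFactors ((AB t).1.map c))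
  · intro t ht
    rw [Multiset.mem_toFinset, Multiset.mem_powerset]
    have hne : (AB t).1.map c ≠ 0 := ((hAB t (Finset.mem_filter.1 ht).1).1.map c).ne_zero
    rw [← UniqueFactorizationMonoid.dvd_iff_normalizedFactors_le_normalizedFactors hne
      hRbm.ne_zero]
    exact ⟨_, (hABF t ht).symm⟩
  intro s _
  set G := F.filter (fun t : ℤ =>
    UniqueFactorizationMonoid.normalizedFactors ((AB t).1.map c) = s) with hG
  rcases G.eq_empty_or_nonempty with hGe | ⟨t1, ht1⟩
  · rw [hGe]; simp
  have hGF : ∀ t ∈ G, t ∈ F := fun t ht => (Finset.mem_filter.1 ht).1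
  have hGT : ∀ t ∈ G, t ∈ T := fun t ht => (Finset.mem_filter.1 (hGF t ht)).1
  have hAmap : ∀ t ∈ G, (AB t).1.map c = s.prod := by
    intro t ht
    have hm : ((AB t).1.map c).Monic := (hAB t (hGT t ht)).1.map c
    rw [← (Finset.mem_filter.1 ht).2,
      UniqueFactorizationMonoid.prod_normalizedFactors_eq hm.ne_zero, hm.normalize_eq_self]
  have hsm : s.prod.Monic := by
    rw [← hAmap t1 ht1]
    exact (hAB t1 (hGT t1 ht1)).1.map c
  have hBmap : ∀ t ∈ G, (AB t).2.map c = (AB t1).2.map c := by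
    intro t ht
    have h1 := hABF t (hGF t ht)
    have h2 := hABF t1 (hGF t1 ht1)
    rw [hAmap t ht] at h1
    rw [hAmap t1 ht1] at h2
    exact mul_left_cancel₀ hsm.ne_zero (h1.trans h2.symm)
  have hAdeg : ∀ t ∈ G, (AB t).1.natDegree = (AB t1).1.natDegree := by
    intro t ht
    rw [← (hAB t (hGT t ht)).1.natDegree_map c, hAmap t ht, ← hAmap t1 ht1,
      (hAB t1 (hGT t1 ht1)).1.natDegree_map c]
  have hBdeg : ∀ t ∈ G, (AB t).2.natDegree = (AB t1).2.natDegree := by
    intro t ht
    rw [← (hAB t (hGT t ht)).2.1.natDegree_map c, hBmap t ht,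
      (hAB t1 (hGT t1 ht1)).2.1.natDegree_map c]
  obtain ⟨hA1, hB1, ha1, hb1, hprod1⟩ := hAB t1 (hGT t1 ht1)
  have hsum : (AB t1).1.natDegree + (AB t1).2.natDegree = n := by
    rw [← hA1.natDegree_mul hB1, hprod1, hRm.natDegree_map, hRn]
  have := class_card_le p R G (fun t => (AB t).1) (fun t => (AB t).2) (AB t1).1.natDegree
    (AB t1).2.natDegree d ha1 hb1 (s.prod) ((AB t1).2.map c)
    (by rw [← hAmap t1 ht1]; exact hsepb t1 (hGF t1 ht1))
    hRm (by rw [hsum, hRn]) hRd hirr
    (by
      intro x hx y hy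
      rw [(Finset.mem_filter.1 (hGF x hx)).2, (Finset.mem_filter.1 (hGF y hy)).2])
    (fun t ht => ⟨(hAB t (hGT t ht)).1, hAdeg t ht, hAmap t ht⟩)
    (fun t ht => ⟨(hAB t (hGT t ht)).2.1, hBdeg t ht, hBmap t ht⟩)
    (fun t ht => ((hAB t (hGT t ht)).2.2.2.2).symm)
    N Y (fun t ht => hN t (hGT t ht))
    (fun t ht i => hY t (hGT t ht) _ _ (hAB t (hGT t ht)).2.2.2.2 i)
    (fun t ht i => hY t (hGT t ht) _ (AB t).1
      (by rw [mul_comm]; exact (hAB t (hGT t ht)).2.2.2.2) i)
    m hsize
  rwa [hsum] at this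

end Pool.Agent.Lib.Pc2475b
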