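import Mathlib
import Pool.Agent.Lib.Pc2475b.Height

/-!
Dirichlet's theorem for small values of integer polynomials.
-/

open Polynomial Finset

namespace Pool.Agent.Lib.Pc2475b

theorem dirichlet (n : ℕ) (ζ : ℝ) : ∃ K : ℝ, 0 < K ∧ ∀ Y : ℝ, 1 ≤ Y →
    ∃ P : ℤ[X], P ≠ 0 ∧ P.natDegree ≤ n ∧ P.supNorm ≤ Y ∧ |aeval ζ P| ≤ K * Y ^ (-(n : ℝ)) := by
  classical
  set Λ : ℝ := ∑ i : Fin (n + 1), |ζ| ^ (i : ℕ) with hΛ
  have hΛ0 : 0 ≤ Λ := Finset.sum_nonneg fun i _ => by positivity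
  refine ⟨2 * Λ + 1, by positivity, ?_⟩
  intro Y hY
  set N : ℕ := ⌊Y⌋₊ with hN
  have hN1 : 1 ≤ N := Nat.one_le_iff_ne_zero.2 (by
    rw [hN]; exact (Nat.floor_pos.2 hY).ne')
  have hNY : (N : ℝ) ≤ Y := Nat.floor_le (by linarith)
  have hYN : Y ≤ (N : ℝ) + 1 := (Nat.lt_floor_add_one Y).le
  have hN1R : (1 : ℝ) ≤ N := by exact_mod_cast hN1
  set V : ℝ := N * Λ with hV
  have hV0 : 0 ≤ V := by positivity
  set K : ℕ := N * (N + 1) ^ n with hK
  have hK0 : 0 < K := by positivity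
  let v : (Fin (n + 1) → Fin (N + 1)) → ℝ := fun a => ∑ i, ((a i : ℕ) : ℝ) * ζ ^ (i : ℕ)
  have hv : ∀ a, |v a| ≤ V := by
    intro a
    calc |v a| ≤ ∑ i, |((a i : ℕ) : ℝ) * ζ ^ (i : ℕ)| := Finset.abs_sum_le_sum_abs _ _
      _ ≤ ∑ i : Fin (n + 1), (N : ℝ) * |ζ| ^ (i : ℕ) := by
          apply Finset.sum_le_sum
          intro i _
          rw [abs_mul, abs_pow, Nat.abs_cast]
          have : ((a i : ℕ) : ℝ) ≤ N := by exact_mod_cast Nat.lt_succ_iff.1 (a i).2
          gcongr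
      _ = V := by rw [hV, hΛ, Finset.mul_sum]
  have hbox : ∀ a, 0 ≤ (v a + V) / (2 * V + 1) * K ∧ (v a + V) / (2 * V + 1) * K < K := by
    intro a
    have h1 := abs_le.1 (hv a)
    constructor
    · apply mul_nonneg (div_nonneg (by linarith) (by linarith)) (by positivity)
    · have h2 : (v a + V) / (2 * V + 1) < 1 := by
        rw [div_lt_one (by linarith)]; linarith
      have h3 : (0 : ℝ) < K := by exact_mod_cast hK0
      nlinarith
  let f : (Fin (n + 1) → Fin (N + 1)) → Fin K := fun a =>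
    ⟨⌊(v a + V) / (2 * V + 1) * K⌋₊, by
      rw [Nat.floor_lt (hbox a).1]; exact (hbox a).2⟩
  have hcard : Fintype.card (Fin K) < Fintype.card (Fin (n + 1) → Fin (N + 1)) := by
    simp only [Fintype.card_fin, Fintype.card_pi, Finset.prod_const, Finset.card_univ]
    rw [hK, pow_succ]
    have : 0 < (N + 1) ^ n := by positivity
    nlinarith
  obtain ⟨a, b, hab, hfab⟩ := Fintype.exists_ne_map_eq_of_card_lt f hcard
  have hfl : ⌊(v a + V) / (2 * V + 1) * K⌋₊ = ⌊(v b + V) / (2 * V + 1) * K⌋₊ := by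
    have := congrArg Fin.val hfab
    simpa [f] using this
  have hdist : |v a - v b| ≤ (2 * V + 1) / K := by
    have h1 := Nat.floor_le (hbox a).1
    have h2 := Nat.lt_floor_add_one ((v a + V) / (2 * V + 1) * K)
    have h3 := Nat.floor_le (hbox b).1
    have h4 := Nat.lt_floor_add_one ((v b + V) / (2 * V + 1) * K)
    rw [hfl] at h1 h2
    have hK0' : (0 : ℝ) < K := by exact_mod_cast hK0
    have h5 : |(v a - v b) / (2 * V + 1) * K| ≤ 1 := by
      rw [abs_le]
      have h6 : (v a - v b) / (2 * V + 1) * K =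
        (v a + V) / (2 * V + 1) * K - (v b + V) / (2 * V + 1) * K := by ring
      rw [h6]
      constructor <;> linarith
    rw [abs_mul, abs_div, abs_of_pos hK0', abs_of_pos (by linarith : 0 < 2 * V + 1)] at h5
    rw [le_div_iff₀ hK0']
    rw [div_mul_eq_mul_div, div_le_one (by linarith)] at h5
    exact h5
  let c : Fin (n + 1) → ℤ := fun i => ((a i : ℕ) : ℤ) - ((b i : ℕ) : ℤ)
  set P : ℤ[X] := ofFn (n + 1) c with hP
  have hPn : P.natDegree < n + 1 := ofFn_natDegree_lt (by omega) c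
  have hPc : ∀ i : ℕ, |P.coeff i| ≤ (N : ℤ) := by
    intro i
    by_cases hi : i < n + 1
    · rw [hP, ofFn_coeff_eq_val_of_lt c hi]
      simp only [c]
      have h1 := (a ⟨i, hi⟩).2
      have h2 := (b ⟨i, hi⟩).2
      rw [abs_le]
      constructor <;> omega
    · rw [hP, ofFn_coeff_eq_zero_of_ge c (by omega)]
      simp
  have hval : aeval ζ P = v a - v b := by
    rw [aeval_eq_sum_range' hPn, Finset.sum_range, ← Finset.sum_sub_distrib]
    apply Finset.sum_congr rfl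
    intro i _
    rw [hP, ofFn_coeff_eq_val_of_lt c i.2]
    simp only [c, zsmul_eq_mul]
    push_cast
    ring
  refine ⟨P, ?_, by omega, ?_, ?_⟩
  · intro h0
    apply hab
    funext i
    have h1 : P.coeff (i : ℕ) = 0 := by rw [h0]; simp
    rw [hP, ofFn_coeff_eq_val_of_lt c i.2] at h1
    simp only [c, Fin.eta] at h1
    apply Fin.ext
    omega
  · obtain ⟨i, hi⟩ := P.exists_eq_supNorm
    rw [hi, Int.norm_eq_abs]
    refine le_trans ?_ hNY
    exact_mod_cast hPc i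
  · rw [hval]
    refine hdist.trans ?_
    have hK' : (K : ℝ) = N * ((N : ℝ) + 1) ^ n := by rw [hK]; push_cast; ring
    have h1 : (2 * V + 1) / K ≤ (2 * Λ + 1) / ((N : ℝ) + 1) ^ n := by
      rw [hK', hV, div_le_div_iff₀ (by positivity) (by positivity)]
      have h2 : (0 : ℝ) < ((N : ℝ) + 1) ^ n := by positivity
      have h3 : 2 * (N * Λ) + 1 ≤ (2 * Λ + 1) * N := by nlinarith
      calc (2 * (N * Λ) + 1) * ((N : ℝ) + 1) ^ n ≤ ((2 * Λ + 1) * N) * ((N : ℝ) + 1) ^ n := by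
            gcongr
        _ = (2 * Λ + 1) * (N * ((N : ℝ) + 1) ^ n) := by ring
    refine h1.trans ?_
    rw [Real.rpow_neg (by linarith), Real.rpow_natCast, div_eq_mul_inv]
    gcongr

end Pool.Agent.Lib.Pc2475b
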