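import Mathlib
import Pool.Agent.Lib.Pc2475b.Height

/-!
Irreducible polynomials of large height with small value.
-/

open Polynomial Finset

namespace Pool.Agent.Lib.Pc2475b

theorem exists_min_value (n : ℕ) (ζ : ℝ) (hζ : Transcendental ℤ ζ) (H : ℝ) :
    ∃ μ : ℝ, 0 < μ ∧ μ ≤ 1 ∧ ∀ P : ℤ[X], P ≠ 0 → P.natDegree ≤ n → P.supNorm ≤ H →
      μ ≤ |aeval ζ P| := by
  have hfin : {P : ℤ[X] | P.natDegree ≤ n ∧ P.supNorm ≤ H}.Finite := by
    refine (finite_mahlerMeasure_le n ⟨max 0 ((n + 1) * H), le_max_left _ _⟩).subset ?_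
    rintro P ⟨h1, h2⟩
    refine ⟨h1, ?_⟩
    have h3 := mm_le h1
    have h4 : ((n : ℝ) + 1) * P.supNorm ≤ (n + 1) * H := by gcongr
    exact (h3.trans h4).trans (le_max_right _ _)
  obtain ⟨K, hK⟩ := (hfin.image (fun P => |aeval ζ P|⁻¹)).bddAbove
  have hK' : ∀ P : ℤ[X], P.natDegree ≤ n → P.supNorm ≤ H → |aeval ζ P|⁻¹ ≤ K := by
    intro P h1 h2
    exact hK ⟨P, ⟨h1, h2⟩, rfl⟩
  refine ⟨(max K 1)⁻¹, by positivity, inv_le_one_of_one_le₀ (le_max_right _ _), ?_⟩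
  intro P hP h1 h2
  have h3 : 0 < |aeval ζ P| := by
    rw [abs_pos]
    intro h
    exact hP (transcendental_iff.1 hζ P h)
  have h4 := (hK' P h1 h2).trans (le_max_left K 1)
  rw [inv_le_comm₀ h3 (by positivity)] at h4
  exact h4

theorem aeval_lower_bound (n : ℕ) (ζ : ℝ) {μ s : ℝ} (hμ : 0 < μ) (hμ1 : μ ≤ 1)
    (hs : 0 < s)
    (h : ∀ B : ℤ[X], Irreducible B → 0 < B.natDegree → B.natDegree ≤ n →
      μ * (mm B) ^ (-s) ≤ |aeval ζ B|) :
    ∀ P : ℤ[X], P ≠ 0 → P.natDegree ≤ n → μ ^ P.natDegree * (mm P) ^ (-s) ≤ |aeval ζ P| := by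
  intro P hP
  induction P using WfDvdMonoid.induction_on_irreducible with
  | zero => exact absurd rfl hP
  | unit u hu =>
    intro _
    obtain ⟨r, hr, rfl⟩ := Polynomial.isUnit_iff.1 hu
    have h1 : |aeval ζ (C r : ℤ[X])| = 1 := by
      rcases Int.isUnit_iff.1 hr with rfl | rfl <;> simp
    have h2 := one_le_mm hP
    rw [h1, natDegree_C, pow_zero, one_mul]
    exact Real.rpow_le_one_of_one_le_of_nonpos h2 (by linarith)
  | mul Q B hQ hB ih =>
    intro hn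
    have hB0 : B ≠ 0 := hB.ne_zero
    rw [natDegree_mul hB0 hQ] at hn ⊢
    have ihQ := ih hQ (by omega)
    rw [mm_mul, map_mul, abs_mul]
    have hmB : 0 < mm B := lt_of_lt_of_le one_pos (one_le_mm hB0)
    have hmQ : 0 < mm Q := lt_of_lt_of_le one_pos (one_le_mm hQ)
    rw [Real.mul_rpow hmB.le hmQ.le, pow_add]
    have hBkey : μ ^ B.natDegree * (mm B) ^ (-s) ≤ |aeval ζ B| := by
      rcases Nat.eq_zero_or_pos B.natDegree with hd | hd
      · rw [hd, pow_zero, one_mul]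
        obtain ⟨r, rfl⟩ := natDegree_eq_zero.1 hd
        have hr : r ≠ 0 := by rintro rfl; simp at hB0
        have h1 : (1 : ℝ) ≤ |aeval ζ (C r : ℤ[X])| := by
          rw [aeval_C, algebraMap_int_eq, eq_intCast]
          exact_mod_cast Int.one_le_abs hr
        refine le_trans ?_ h1
        exact Real.rpow_le_one_of_one_le_of_nonpos (one_le_mm hB0) (by linarith)
      · refine le_trans ?_ (h B hB hd (by omega))
        gcongr
        calc μ ^ B.natDegree ≤ μ ^ 1 := pow_le_pow_of_le_one hμ.le hμ1 hd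
          _ = μ := pow_one _
    have hp1 : 0 ≤ μ ^ B.natDegree * (mm B) ^ (-s) := by positivity
    have hp2 : 0 ≤ μ ^ Q.natDegree * (mm Q) ^ (-s) := by positivity
    calc μ ^ B.natDegree * μ ^ Q.natDegree * (mm B ^ (-s) * mm Q ^ (-s))
        = (μ ^ B.natDegree * (mm B) ^ (-s)) * (μ ^ Q.natDegree * (mm Q) ^ (-s)) := by ring
      _ ≤ |aeval ζ B| * |aeval ζ Q| := by
          exact mul_le_mul hBkey ihQ hp2 (abs_nonneg _)

theorem exists_good_irreducible (n : ℕ) (ζ : ℝ) (hζ : Transcendental ℤ ζ) (w s : ℝ)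
    (hs : 0 < s) (hsw : s < w)
    (h : ∃ X₀ : ℝ, ∀ Y : ℝ, X₀ ≤ Y → ∃ P : ℤ[X], P.natDegree ≤ n ∧ P.supNorm ≤ Y ∧
      0 < |aeval ζ P| ∧ |aeval ζ P| ≤ Y ^ (-w)) (H₀ : ℝ) :
    ∃ B : ℤ[X], Irreducible B ∧ 0 < B.natDegree ∧ B.natDegree ≤ n ∧ H₀ ≤ B.supNorm ∧
      |aeval ζ B| ≤ B.supNorm ^ (-s) := by
  by_contra hcon
  push Not at hcon
  obtain ⟨μ, hμ, hμ1, hμP⟩ := exists_min_value n ζ hζ H₀
  -- lower bound for every irreducible
  have hc2 : (0 : ℝ) < (2 ^ n : ℝ) ^ (-s) := by positivity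
  have hc2' : ((2 : ℝ) ^ n) ^ (-s) ≤ 1 :=
    Real.rpow_le_one_of_one_le_of_nonpos (one_le_pow₀ (by norm_num)) (by linarith)
  have hlow : ∀ B : ℤ[X], Irreducible B → 0 < B.natDegree → B.natDegree ≤ n →
      (μ * ((2 : ℝ) ^ n) ^ (-s)) * (mm B) ^ (-s) ≤ |aeval ζ B| := by
    intro B hB hd hd'
    have hmB : 1 ≤ mm B := one_le_mm hB.ne_zero
    have hsn := supNorm_le hd'
    have hsn1 := one_le_supNorm hB.ne_zero
    have h1 : ((2 : ℝ) ^ n) ^ (-s) * (mm B) ^ (-s) ≤ B.supNorm ^ (-s) := by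
      rw [← Real.mul_rpow (by positivity) (by linarith)]
      exact Real.rpow_le_rpow_of_nonpos (by linarith) hsn (by linarith)
    have h2 : μ * B.supNorm ^ (-s) ≤ |aeval ζ B| := by
      by_cases hH : H₀ ≤ B.supNorm
      · have h3 := hcon B hB hd hd' hH
        have h4 : 0 ≤ B.supNorm ^ (-s) := by positivity
        nlinarith
      · have h3 := hμP B hB.ne_zero hd' (by linarith)
        have h4 : B.supNorm ^ (-s) ≤ 1 :=
          Real.rpow_le_one_of_one_le_of_nonpos hsn1 (by linarith)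
        have h5 : 0 ≤ B.supNorm ^ (-s) := by positivity
        nlinarith
    calc (μ * ((2 : ℝ) ^ n) ^ (-s)) * (mm B) ^ (-s)
        = μ * (((2 : ℝ) ^ n) ^ (-s) * (mm B) ^ (-s)) := by ring
      _ ≤ μ * B.supNorm ^ (-s) := by gcongr
      _ ≤ _ := h2
  set ν : ℝ := μ * ((2 : ℝ) ^ n) ^ (-s) with hν
  have hν0 : 0 < ν := by positivity
  have hν1 : ν ≤ 1 := by
    calc ν ≤ 1 * 1 := mul_le_mul hμ1 hc2' hc2.le (by norm_num)
      _ = 1 := one_mul 1
  have hall := aeval_lower_bound n ζ hν0 hν1 hs hlow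
  obtain ⟨X₀, hX₀⟩ := h
  -- choose Y large
  have hlim : Filter.Tendsto (fun Y : ℝ => ν ^ n * ((n : ℝ) + 1) ^ (-s) * Y ^ (w - s))
      Filter.atTop Filter.atTop := by
    apply Filter.Tendsto.const_mul_atTop (by positivity)
    exact tendsto_rpow_atTop (by linarith)
  have hev := (hlim.eventually_gt_atTop 1).and
    ((Filter.eventually_ge_atTop X₀).and (Filter.eventually_ge_atTop (1 : ℝ)))
  obtain ⟨Y, hY1, hY2, hY3⟩ := hev.exists
  obtain ⟨P, hPn, hPs, hP0, hPv⟩ := hX₀ Y hY2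
  have hPne : P ≠ 0 := by
    rintro rfl
    simp at hP0
  have h1 := hall P hPne hPn
  have hmP : 1 ≤ mm P := one_le_mm hPne
  have h2 : mm P ≤ (n + 1) * Y := (mm_le hPn).trans (by gcongr)
  have h3 : ν ^ n * ((n : ℝ) + 1) ^ (-s) * Y ^ (-s) ≤ Y ^ (-w) := by
    refine le_trans ?_ (h1.trans hPv)
    have h4 : ((n : ℝ) + 1) ^ (-s) * Y ^ (-s) ≤ (mm P) ^ (-s) := by
      rw [← Real.mul_rpow (by positivity) (by linarith)]
      exact Real.rpow_le_rpow_of_nonpos (by linarith) h2 (by linarith)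
    have h5 : ν ^ n ≤ ν ^ P.natDegree := pow_le_pow_of_le_one hν0.le hν1 hPn
    calc ν ^ n * ((n : ℝ) + 1) ^ (-s) * Y ^ (-s)
        = ν ^ n * (((n : ℝ) + 1) ^ (-s) * Y ^ (-s)) := by ring
      _ ≤ ν ^ P.natDegree * (mm P) ^ (-s) := by
          apply mul_le_mul h5 h4 (by positivity) (by positivity)
  have hY0 : 0 < Y := by linarith
  have h6 : ν ^ n * ((n : ℝ) + 1) ^ (-s) * Y ^ (w - s) ≤ 1 := by
    have h7 : Y ^ (w - s) = Y ^ w * Y ^ (-s) := by
      rw [← Real.rpow_add hY0]; congr 1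
    have h8 : Y ^ w * Y ^ (-w) = 1 := by
      rw [← Real.rpow_add hY0]; simp
    calc ν ^ n * ((n : ℝ) + 1) ^ (-s) * Y ^ (w - s)
        = Y ^ w * (ν ^ n * ((n : ℝ) + 1) ^ (-s) * Y ^ (-s)) := by rw [h7]; ring
      _ ≤ Y ^ w * Y ^ (-w) := by gcongr
      _ = 1 := h8
  linarith

end Pool.Agent.Lib.Pc2475b
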