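import Mathlib
import Pool.Agent.Lib.Pc2475b.Count

/-!
A quantitative Hilbert irreducibility theorem, uniform in the height of the polynomial.
-/

open Polynomial Finset

namespace Pool.Agent.Lib.Pc2475b

theorem exists_primes (K : ℕ) {x : ℕ} (hx : 0 < x) :
    ∃ P : Finset ℕ, #P = K ∧ ∀ p ∈ P, p.Prime ∧ x < p ∧ p ≤ 2 ^ K * x := by
  classical
  induction K with
  | zero => exact ⟨∅, by simp, by simp⟩
  | succ K ih =>
    obtain ⟨P, hP, hP'⟩ := ih
    obtain ⟨q, hq, hq1, hq2⟩ := Nat.exists_prime_lt_and_le_two_mul (2 ^ K * x) (by positivity)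
    have hnot : q ∉ P := fun h => by
      have := (hP' q h).2.2
      omega
    refine ⟨insert q P, by rw [Finset.card_insert_of_notMem hnot, hP], ?_⟩
    intro p hp
    have hle : x ≤ 2 ^ K * x := Nat.le_mul_of_pos_left x (by positivity)
    rcases Finset.mem_insert.1 hp with rfl | hp
    · refine ⟨hq, by omega, ?_⟩
      rw [pow_succ]; linarith
    · obtain ⟨h1, h2, h3⟩ := hP' p hp
      refine ⟨h1, h2, ?_⟩
      rw [pow_succ]; linarith

theorem exists_prime_not_dvd {K x : ℕ} {P : Finset ℕ} (hP : #P = K)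
    (hP' : ∀ p ∈ P, p.Prime ∧ x < p) {z : ℤ} (hz : z ≠ 0) (hz' : |z| < (x : ℤ) ^ K) :
    ∃ p ∈ P, ¬ (p : ℤ) ∣ z := by
  by_contra hcon
  push Not at hcon
  have h1 : ∏ p ∈ P, p ∣ z.natAbs := by
    apply Finset.prod_primes_dvd
    · intro p hp
      exact (hP' p hp).1.prime
    · intro p hp
      exact Int.natCast_dvd.1 (hcon p hp)
  have h2 : ∏ p ∈ P, p ≤ z.natAbs := Nat.le_of_dvd (Int.natAbs_pos.2 hz) h1
  have h3 : x ^ K ≤ ∏ p ∈ P, p := by
    rw [← hP, ← Finset.prod_const]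
    exact Finset.prod_le_prod' fun p hp => (hP' p hp).2.le
  have h4 : ((x ^ K : ℕ) : ℤ) ≤ |z| := by
    rw [← Int.natCast_natAbs]
    exact_mod_cast h3.trans h2
  push_cast at h4
  omega

theorem hilbert (n d κ : ℕ) (hn : 0 < n) : ∃ C M₀ : ℕ, ∀ M : ℕ, M₀ ≤ M → ∀ R : ℤ[X][X],
    R.Monic → R.natDegree = n → (∀ i, (R.coeff i).natDegree ≤ d) →
    Irreducible (R.map (mapRingHom (Int.castRingHom ℚ))) →
    (∀ t : ℤ, 1 ≤ t → t ≤ (M : ℤ) ^ 4 → ∀ i, |(R.coeff i).eval t| ≤ (M : ℤ) ^ (4 * κ)) →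
    ∀ T : Finset ℤ, (∀ t ∈ T, 1 ≤ t ∧ t ≤ (M : ℤ) ^ 4 ∧
      ¬ Irreducible (R.map (evalRingHom t))) → #T ≤ C * M ^ 3 := by
  classical
  set s := n + (n - 1) with hs
  set m := 2 * κ with hm
  set K := 4 * κ * s + 1 with hK
  set C₁ : ℕ := (2 * (m + 1)).factorial * (2 ^ n * (n + 1)) ^ (m + 1) with hC₁
  set C₂ : ℕ := s.factorial * n ^ s with hC₂
  refine ⟨s * d + K * ((n * m + d) * 2 ^ n * 2 ^ K), C₁ + C₂ + 1, ?_⟩
  intro M hM R hRm hRn hRd hirr hval T hT
  have hM1 : 1 ≤ M := by omega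
  have hMC1 : C₁ < M := by omega
  have hMC2 : C₂ < M := by omega
  have hMZ : (1 : ℤ) ≤ M := by exact_mod_cast hM1
  obtain ⟨P, hPcard, hP⟩ := exists_primes K (x := M ^ 3) (by positivity)
  have hdisc0 := disc_ne_zero R n hRm hRn hirr
  -- cover of T
  set Z := T.filter (fun t => (disc R n).eval t = 0) with hZ
  set Tp : ℕ → Finset ℤ := fun p => T.filter (fun t => ¬ (p : ℤ) ∣ (disc R n).eval t) with hTp
  have hcover : T ⊆ Z ∪ P.biUnion Tp := by
    intro t ht
    by_cases h0 : (disc R n).eval t = 0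
    · exact Finset.mem_union_left _ (Finset.mem_filter.2 ⟨ht, h0⟩)
    · apply Finset.mem_union_right
      have hbound := abs_disc_eval_le R n hn hRn.le t ((M : ℤ) ^ (4 * κ))
        (fun i => hval t (hT t ht).1 (hT t ht).2.1 i)
      have hlt : |(disc R n).eval t| < ((M ^ 3 : ℕ) : ℤ) ^ K := by
        refine lt_of_le_of_lt hbound ?_
        rw [← hs]
        calc ((s.factorial : ℕ) : ℤ) * ((n : ℤ) * (M : ℤ) ^ (4 * κ)) ^ s
            = (C₂ : ℤ) * (M : ℤ) ^ (4 * κ * s) := by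
              rw [hC₂, mul_pow, ← pow_mul]; push_cast; ring
          _ < (M : ℤ) * (M : ℤ) ^ (4 * κ * s) := by
              have h1 : (C₂ : ℤ) < M := by exact_mod_cast hMC2
              have h2 : (0 : ℤ) < (M : ℤ) ^ (4 * κ * s) := by positivity
              nlinarith
          _ = (M : ℤ) ^ K := by rw [hK]; ring
          _ ≤ (M : ℤ) ^ (3 * K) := pow_le_pow_right₀ hMZ (by omega)
          _ = ((M ^ 3 : ℕ) : ℤ) ^ K := by push_cast; rw [← pow_mul]
      obtain ⟨p, hp, hpd⟩ := exists_prime_not_dvd hPcard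
        (fun p hp => ⟨(hP p hp).1, (hP p hp).2.1⟩) h0 hlt
      exact Finset.mem_biUnion.2 ⟨p, hp, Finset.mem_filter.2 ⟨ht, hpd⟩⟩
  have hZcard : #Z ≤ s * d := by
    have h1 : Z ⊆ (disc R n).roots.toFinset := by
      intro t ht
      rw [Multiset.mem_toFinset, mem_roots hdisc0]
      exact (Finset.mem_filter.1 ht).2
    calc #Z ≤ #((disc R n).roots.toFinset) := Finset.card_le_card h1
      _ ≤ (disc R n).roots.card := Multiset.toFinset_card_le _
      _ ≤ (disc R n).natDegree := card_roots' _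
      _ ≤ s * d := natDegree_disc_le R n d hRd
  have hTpcard : ∀ p ∈ P, #(Tp p) ≤ (n * m + d) * 2 ^ n * (2 ^ K * M ^ 3) := by
    intro p hp
    obtain ⟨hpp, hp1, hp2⟩ := hP p hp
    have : Fact p.Prime := ⟨hpp⟩
    refine (count_prime p R n d m hn hRm hRn hRd hirr (Tp p)
      (fun t ht => (hT t (Finset.mem_filter.1 ht).1).2.2)
      (fun t ht => (Finset.mem_filter.1 ht).2) ((M : ℤ) ^ 4)
      (2 ^ n * (n + 1) * (M : ℤ) ^ (4 * κ)) ?_ ?_ ?_).trans ?_
    · intro t ht
      have h1 := hT t (Finset.mem_filter.1 ht).1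
      rw [abs_of_nonneg (by omega)]
      exact h1.2.1
    · intro t ht A B hAB i
      have htT := hT t (Finset.mem_filter.1 ht).1
      have hRtm : (R.map (evalRingHom t)).Monic := hRm.map _
      have hRtn : (R.map (evalRingHom t)).natDegree = n := by rw [hRm.natDegree_map, hRn]
      have h1 := norm_coeff_le_of_mul (A := A) (B := B) (n := n)
        (by rw [hAB]; exact hRtm.ne_zero) (by rw [hAB, hRtn]) i
      have h2 : (A * B).supNorm ≤ (M : ℝ) ^ (4 * κ) := by
        rw [hAB]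
        obtain ⟨j, hj⟩ := (R.map (evalRingHom t)).exists_eq_supNorm
        rw [hj, coeff_map, Int.norm_eq_abs]
        have := hval t htT.1 htT.2.1 j
        simp only [coe_evalRingHom]
        exact_mod_cast this
      have h3 : ‖A.coeff i‖ ≤ 2 ^ n * (n + 1) * (M : ℝ) ^ (4 * κ) := by
        refine h1.trans ?_
        gcongr
      rw [Int.norm_eq_abs] at h3
      exact_mod_cast h3
    · calc ((2 * (m + 1)).factorial : ℤ) * (((M : ℤ) ^ 4) ^ (m * (m + 1)) *
            (2 ^ n * (n + 1) * (M : ℤ) ^ (4 * κ)) ^ (m + 1))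
          = (C₁ : ℤ) * (M : ℤ) ^ (6 * m * (m + 1)) := by
            have e1 : 4 * κ = 2 * m := by omega
            rw [e1, hC₁]
            push_cast
            rw [← pow_mul, mul_pow (2 ^ n * ((n : ℤ) + 1)), ← pow_mul]
            have e2 : (M : ℤ) ^ (6 * m * (m + 1)) =
                (M : ℤ) ^ (4 * (m * (m + 1))) * (M : ℤ) ^ (2 * m * (m + 1)) := by
              rw [← pow_add]; congr 1; ring
            rw [e2]; ring
        _ < (M : ℤ) * (M : ℤ) ^ (6 * m * (m + 1)) := by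
            have h1 : (C₁ : ℤ) < M := by exact_mod_cast hMC1
            have h2 : (0 : ℤ) < (M : ℤ) ^ (6 * m * (m + 1)) := by positivity
            nlinarith
        _ = (M : ℤ) ^ (6 * m * (m + 1) + 1) := by ring
        _ ≤ (M : ℤ) ^ (3 * ((m + 1) * (2 * m + 1))) := by
            apply pow_le_pow_right₀ hMZ
            nlinarith
        _ = ((M : ℤ) ^ 3) ^ ((m + 1) * (2 * m + 1)) := by rw [← pow_mul]
        _ ≤ (p : ℤ) ^ ((m + 1) * (2 * m + 1)) := by
            apply pow_le_pow_left₀ (by positivity)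
            exact_mod_cast hp1.le
    · gcongr
  calc #T ≤ #(Z ∪ P.biUnion Tp) := Finset.card_le_card hcover
    _ ≤ #Z + #(P.biUnion Tp) := Finset.card_union_le _ _
    _ ≤ #Z + ∑ p ∈ P, #(Tp p) := by gcongr; exact Finset.card_biUnion_le
    _ ≤ s * d + ∑ p ∈ P, (n * m + d) * 2 ^ n * (2 ^ K * M ^ 3) :=
        add_le_add hZcard (Finset.sum_le_sum hTpcard)
    _ = s * d + K * ((n * m + d) * 2 ^ n * 2 ^ K) * M ^ 3 := by
        rw [Finset.sum_const, hPcard, smul_eq_mul]; ring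
    _ ≤ (s * d + K * ((n * m + d) * 2 ^ n * 2 ^ K)) * M ^ 3 := by
        have h1 : s * d ≤ s * d * M ^ 3 := Nat.le_mul_of_pos_right _ (by positivity)
        rw [add_mul (s * d)]
        exact Nat.add_le_add_right h1 _

end Pool.Agent.Lib.Pc2475b
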