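import Mathlib
import Pool.Agent.Lib.Pc2475b.Hilbert

/-!
Irreducible members of a pencil of integer polynomials with a parameter of size `H ^ ε`.
-/

open Polynomial Finset

namespace Pool.Agent.Lib.Pc2475b

theorem irreducible_comp_C_mul_X {k : Type*} [Field k] (p : k[X]) {a : k} (ha : a ≠ 0) :
    Irreducible (p.comp (C a * X)) ↔ Irreducible p := by
  let _ := invertibleOfNonzero ha
  have h := MulEquiv.irreducible_iff (algEquivCMulXAddC a (0 : k)).toMulEquiv (x := p)
  have e : (algEquivCMulXAddC a (0 : k)).toMulEquiv p = p.comp (C a * X) := by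
    show (algEquivCMulXAddC a (0 : k)) p = p.comp (C a * X)
    rw [algEquivCMulXAddC_apply, C_0, add_zero]
    rfl
  rw [e] at h
  exact h

theorem irreducible_scaleRoots {k : Type*} [Field k] (p : k[X]) {s : k} (hs : s ≠ 0) :
    Irreducible (p.scaleRoots s) ↔ Irreducible p := by
  have h : p.scaleRoots s = C (s ^ p.natDegree) * p.comp (C s⁻¹ * X) := by
    ext i
    rw [coeff_scaleRoots, coeff_C_mul, comp_C_mul_X_coeff]
    by_cases hi : i ≤ p.natDegree
    · have : s ^ p.natDegree = s ^ (p.natDegree - i) * s ^ i := by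
        rw [← pow_add]; congr 1; omega
      rw [this, inv_pow]
      field_simp
    · rw [coeff_eq_zero_of_natDegree_lt (by omega)]; simp
  rw [h, irreducible_isUnit_mul (isUnit_C.2 (isUnit_iff_ne_zero.2 (pow_ne_zero _ hs))),
    irreducible_comp_C_mul_X p (inv_ne_zero hs)]

theorem irreducible_integralNormalization {k : Type*} [Field k] {p : k[X]} (hp : p ≠ 0) :
    Irreducible p.integralNormalization ↔ Irreducible p := by
  have hlc : p.leadingCoeff ≠ 0 := leadingCoeff_ne_zero.2 hp
  rw [← irreducible_scaleRoots p hlc, ← integralNormalization_mul_C_leadingCoeff,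
    irreducible_mul_isUnit (isUnit_C.2 (isUnit_iff_ne_zero.2 hlc))]

/-- The generic member of the pencil. -/
noncomputable def pencil {S : Type*} [CommRing S] (F G : S[X]) : S[X][X] :=
  F.map C + C X * G.map C

theorem pencil_map {S T : Type*} [CommRing S] [CommRing T] (f : S →+* T) (F G : S[X]) :
    (pencil F G).map (mapRingHom f) = pencil (F.map f) (G.map f) := by
  have h : ∀ H : S[X], (H.map C).map (mapRingHom f) = (H.map f).map C := by
    intro H
    rw [Polynomial.map_map, Polynomial.map_map]
    congr 1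
    ext x
    simp
  simp [pencil, h]

theorem pencil_eval {S : Type*} [CommRing S] (F G : S[X]) (t : S) :
    (pencil F G).map (evalRingHom t) = F + C t * G := by
  have hmapC : ∀ (F : S[X]), ((F.map C : S[X][X])).map (evalRingHom t) = F := by
    intro F
    rw [Polynomial.map_map]
    have : (evalRingHom t).comp (C : S →+* S[X]) = RingHom.id S := by
      ext x; simp
    rw [this, Polynomial.map_id]
  simp [pencil, hmapC]

theorem pencil_coeff {S : Type*} [CommRing S] (F G : S[X]) (i : ℕ) :
    (pencil F G).coeff i = C (F.coeff i) + X * C (G.coeff i) := by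
  simp [pencil]

theorem pencil_natDegree {S : Type*} [CommRing S] {F G : S[X]} {n : ℕ}
    (hF : F.natDegree = n) (hF0 : F ≠ 0) (hG : G.natDegree ≤ n) :
    (pencil F G).natDegree = n := by
  apply le_antisymm
  · rw [natDegree_le_iff_coeff_eq_zero]
    intro N hN
    rw [pencil_coeff, coeff_eq_zero_of_natDegree_lt (by omega : F.natDegree < N),
      coeff_eq_zero_of_natDegree_lt (by omega : G.natDegree < N)]
    simp
  · apply le_natDegree_of_ne_zero
    rw [pencil_coeff]
    intro h
    have := congrArg (fun q => q.coeff 0) h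
    simp only [coeff_add, coeff_C_zero, mul_coeff_zero, coeff_X_zero, zero_mul, add_zero,
      coeff_zero] at this
    rw [← hF] at this
    exact hF0 (leadingCoeff_eq_zero.1 this)

theorem pencil_irreducible {k : Type*} [Field k] {F G : k[X]} (hG : G ≠ 0)
    (hcop : IsCoprime F G) : Irreducible (pencil F G) := by
  rw [← MulEquiv.irreducible_iff (Bivariate.swap (R := k)).toMulEquiv]
  have e : (Bivariate.swap (R := k)).toMulEquiv (pencil F G) = C G * X + C F := by
    show Bivariate.swap (pencil F G) = C G * X + C F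
    rw [pencil, map_add, map_mul, Bivariate.swap_map_C, Bivariate.swap_map_C, Bivariate.swap_X]
    ring
  rw [e]
  exact irreducible_C_mul_X_add_C hG hcop.symm.isRelPrime

theorem pencil_normal_irreducible {F G : ℚ[X]} {n : ℕ} (hn : 0 < n) (hF : F.natDegree = n)
    (hG : G.natDegree ≤ n) (hG0 : G ≠ 0) (hcop : IsCoprime F G) :
    Irreducible (pencil F G).integralNormalization := by
  have hF0 : F ≠ 0 := by rintro rfl; simp at hF; omega
  have hirr := pencil_irreducible hG0 hcop
  have hne : pencil F G ≠ 0 := hirr.ne_zero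
  have hnd := pencil_natDegree hF hF0 hG
  have hprim : (pencil F G).IsPrimitive := hirr.isPrimitive (by omega)
  have hmon : (pencil F G).integralNormalization.Monic := monic_integralNormalization hne
  let K := FractionRing ℚ[X]
  rw [Monic.irreducible_iff_irreducible_map_fraction_map (K := K) hmon]
  rw [IsPrimitive.irreducible_iff_irreducible_map_fraction_map (K := K) hprim] at hirr
  rw [← integralNormalization_map]
  · exact (irreducible_integralNormalization hirr.ne_zero).2 hirr
  · have : Function.Injective (algebraMap ℚ[X] K) := IsFractionRing.injective ℚ[X] K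
    rw [Ne, map_eq_zero_iff _ this]
    exact leadingCoeff_ne_zero.2 hne

theorem exists_irreducible_pencil (n q : ℕ) (hn : 0 < n) : ∃ M₀ : ℕ, ∀ M : ℕ, M₀ ≤ M →
    ∀ F G : ℤ[X], F.natDegree = n → G.natDegree ≤ n →
    IsCoprime (F.map (Int.castRingHom ℚ)) (G.map (Int.castRingHom ℚ)) →
    (∀ i, |F.coeff i| ≤ (M : ℤ) ^ q) → (∀ i, |G.coeff i| ≤ (M : ℤ) ^ q) →
    ∃ t : ℤ, 1 ≤ t ∧ t ≤ (M : ℤ) ^ 4 ∧ (F + C t * G).natDegree = n ∧
      Irreducible ((F + C t * G).map (Int.castRingHom ℚ)) := by
  classical
  obtain ⟨K, M₁, hH⟩ := hilbert n n ((q + 5) * n) hn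
  refine ⟨M₁ + K + 3, ?_⟩
  intro M hM F G hF hG hcop hFb hGb
  set ι : ℤ →+* ℚ := Int.castRingHom ℚ with hι
  have hιinj : Function.Injective ι := Int.cast_injective
  have hF0 : F ≠ 0 := by rintro rfl; simp at hF; omega
  have hFn : (F.map ι).natDegree = n := by rw [natDegree_map_eq_of_injective hιinj, hF]
  have hGn : (G.map ι).natDegree ≤ n := by rw [natDegree_map_eq_of_injective hιinj]; exact hG
  have hG0 : G ≠ 0 := by
    rintro rfl
    rw [Polynomial.map_zero, isCoprime_zero_right] at hcop
    have := natDegree_eq_zero_of_isUnit hcop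
    omega
  have hG0' : G.map ι ≠ 0 := (Polynomial.map_ne_zero_iff hιinj).2 hG0
  set R₀ := pencil F G with hR₀
  have hR₀n : R₀.natDegree = n := pencil_natDegree hF hF0 hG
  have hR₀0 : R₀ ≠ 0 := by
    intro h
    rw [h] at hR₀n; simp at hR₀n; omega
  set R := R₀.integralNormalization with hR
  have hRm : R.Monic := monic_integralNormalization hR₀0
  have hRn : R.natDegree = n := by rw [hR, natDegree_integralNormalization, hR₀n]
  have hlc : R₀.leadingCoeff = C (F.coeff n) + X * C (G.coeff n) := by
    rw [leadingCoeff, hR₀n, hR₀, pencil_coeff]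
  have hlindeg : ∀ a b : ℤ, (C a + X * C b : ℤ[X]).natDegree ≤ 1 := by
    intro a b
    refine (natDegree_add_le _ _).trans (max_le (by simp) ?_)
    exact (natDegree_mul_C_le _ _).trans natDegree_X_le
  have hRcoeff : ∀ i, i < n → R.coeff i =
      (C (F.coeff i) + X * C (G.coeff i)) * (C (F.coeff n) + X * C (G.coeff n)) ^ (n - 1 - i) := by
    intro i hi
    rw [hR, integralNormalization_coeff_ne_natDegree (by omega), hlc, hR₀n, hR₀, pencil_coeff]
  have hRcoeffn : R.coeff n = 1 := by
    rw [← hRn]; exact hRm.coeff_natDegree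
  have hRcoeff0 : ∀ i, n < i → R.coeff i = 0 := by
    intro i hi
    exact coeff_eq_zero_of_natDegree_lt (by omega)
  have hRd : ∀ i, (R.coeff i).natDegree ≤ n := by
    intro i
    rcases lt_trichotomy i n with hi | hi | hi
    · rw [hRcoeff i hi]
      refine natDegree_mul_le.trans ?_
      have h1 := hlindeg (F.coeff i) (G.coeff i)
      have h2 := natDegree_pow_le (p := (C (F.coeff n) + X * C (G.coeff n) : ℤ[X])) (n := n - 1 - i)
      have h3 := hlindeg (F.coeff n) (G.coeff n)
      have h4 : (n - 1 - i) * (C (F.coeff n) + X * C (G.coeff n) : ℤ[X]).natDegree ≤ n - 1 - i := by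
        calc _ ≤ (n - 1 - i) * 1 := Nat.mul_le_mul_left _ h3
          _ = _ := mul_one _
      omega
    · rw [hi, hRcoeffn]; simp
    · rw [hRcoeff0 i hi]; simp
  have hirr : Irreducible (R.map (mapRingHom ι)) := by
    rw [hR, ← integralNormalization_map, hR₀, pencil_map]
    · exact pencil_normal_irreducible hn hFn hGn hG0' hcop
    · have : Function.Injective (mapRingHom ι) := map_injective ι hιinj
      rw [Ne, map_eq_zero_iff _ this]
      exact leadingCoeff_ne_zero.2 hR₀0
  have hM2 : 2 ≤ M := by omega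
  have hMZ2 : (2 : ℤ) ≤ M := by exact_mod_cast hM2
  have hval : ∀ t : ℤ, 1 ≤ t → t ≤ (M : ℤ) ^ 4 → ∀ i,
      |(R.coeff i).eval t| ≤ (M : ℤ) ^ (4 * ((q + 5) * n)) := by
    intro t ht1 ht2 i
    have hlin : ∀ j, |(C (F.coeff j) + X * C (G.coeff j) : ℤ[X]).eval t| ≤ (M : ℤ) ^ (q + 5) := by
      intro j
      have h1 := hFb j
      have h2 := hGb j
      simp only [eval_add, eval_mul, eval_C, eval_X]
      have h3 : |t| ≤ (M : ℤ) ^ 4 := by rw [abs_of_nonneg (by omega)]; exact ht2
      calc |F.coeff j + t * G.coeff j| ≤ |F.coeff j| + |t| * |G.coeff j| := by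
            rw [← abs_mul]; exact abs_add_le _ _
        _ ≤ (M : ℤ) ^ q + (M : ℤ) ^ 4 * (M : ℤ) ^ q := by gcongr
        _ = (1 + (M : ℤ) ^ 4) * (M : ℤ) ^ q := by ring
        _ ≤ (M : ℤ) ^ 5 * (M : ℤ) ^ q := by
            gcongr
            have h4 : (1 : ℤ) ≤ (M : ℤ) ^ 4 := one_le_pow₀ (by omega)
            have h5 : (M : ℤ) ^ 5 = (M : ℤ) * (M : ℤ) ^ 4 := by ring
            rw [h5]
            nlinarith
        _ = (M : ℤ) ^ (q + 5) := by rw [← pow_add, add_comm]
    have hM1 : (1 : ℤ) ≤ M := by omega
    rcases lt_trichotomy i n with hi | hi | hi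
    · rw [hRcoeff i hi, eval_mul, eval_pow, abs_mul, abs_pow]
      calc _ ≤ (M : ℤ) ^ (q + 5) * ((M : ℤ) ^ (q + 5)) ^ (n - 1 - i) := by
            have h1 := hlin i
            have h2 := hlin n
            gcongr
        _ = (M : ℤ) ^ ((q + 5) * (n - i)) := by
            rw [← pow_mul, ← pow_add]
            congr 1
            have : n - i = (n - 1 - i) + 1 := by omega
            rw [this]; ring
        _ ≤ (M : ℤ) ^ (4 * ((q + 5) * n)) := by
            apply pow_le_pow_right₀ hM1
            have : n - i ≤ n := Nat.sub_le _ _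
            calc (q + 5) * (n - i) ≤ (q + 5) * n := Nat.mul_le_mul_left _ this
              _ ≤ 4 * ((q + 5) * n) := by omega
    · rw [hi, hRcoeffn]
      simp only [eval_one, abs_one]
      exact one_le_pow₀ hM1
    · rw [hRcoeff0 i hi]
      simp only [eval_zero, abs_zero]
      positivity
  -- count the bad parameters
  set I : Finset ℤ := Finset.Icc 1 ((M : ℤ) ^ 4) with hI
  set T := I.filter (fun t => ¬ Irreducible (R.map (evalRingHom t))) with hT
  set Z := I.filter (fun t => F.coeff n + t * G.coeff n = 0) with hZ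
  have hTcard : #T ≤ K * M ^ 3 := by
    apply hH M (by omega) R hRm hRn hRd hirr hval
    intro t ht
    have h1 := Finset.mem_filter.1 ht
    have h2 := Finset.mem_Icc.1 h1.1
    exact ⟨h2.1, h2.2, h1.2⟩
  have hFn0 : F.coeff n ≠ 0 := by
    rw [← hF]; exact leadingCoeff_ne_zero.2 hF0
  have hZcard : #Z ≤ 1 := by
    rw [Finset.card_le_one]
    intro a ha b hb
    have h1 := (Finset.mem_filter.1 ha).2
    have h2 := (Finset.mem_filter.1 hb).2
    have h3 : (a - b) * G.coeff n = 0 := by linear_combination h1 - h2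
    rcases mul_eq_zero.1 h3 with h | h
    · omega
    · rw [h] at h1
      simp at h1
      exact absurd h1 hFn0
  have hIcard : #I = M ^ 4 := by
    rw [hI, Int.card_Icc]
    simp
    norm_cast
  have hlt : #(T ∪ Z) < #I := by
    rw [hIcard]
    calc #(T ∪ Z) ≤ #T + #Z := Finset.card_union_le _ _
      _ ≤ K * M ^ 3 + 1 := add_le_add hTcard hZcard
      _ < (K + 1) * M ^ 3 + 1 := by
          have : 0 < M ^ 3 := by positivity
          nlinarith
      _ ≤ (K + 1) * M ^ 3 + M ^ 3 := by
          have : 0 < M ^ 3 := by positivity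
          omega
      _ = (K + 2) * M ^ 3 := by ring
      _ ≤ M * M ^ 3 := Nat.mul_le_mul_right _ (by omega)
      _ = M ^ 4 := by ring
  obtain ⟨t, htI, htn⟩ := Finset.exists_mem_notMem_of_card_lt_card hlt
  have ht2 := Finset.mem_Icc.1 htI
  rw [Finset.mem_union, not_or] at htn
  have hirrt : Irreducible (R.map (evalRingHom t)) := by
    by_contra h
    exact htn.1 (Finset.mem_filter.2 ⟨htI, h⟩)
  have hlct : F.coeff n + t * G.coeff n ≠ 0 := by
    intro h
    exact htn.2 (Finset.mem_filter.2 ⟨htI, h⟩)
  have hFGn : (F + C t * G).natDegree = n := by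
    apply le_antisymm
    · refine (natDegree_add_le _ _).trans (max_le hF.le ?_)
      exact (natDegree_C_mul_le _ _).trans hG
    · apply le_natDegree_of_ne_zero
      simpa using hlct
  refine ⟨t, ht2.1, ht2.2, hFGn, ?_⟩
  have hev : R.map (evalRingHom t) = (F + C t * G).integralNormalization := by
    rw [hR, ← integralNormalization_map, hR₀, pencil_eval]
    rw [hlc]
    simpa using hlct
  rw [hev] at hirrt
  have hFG0 : F + C t * G ≠ 0 := by
    intro h; rw [h] at hFGn; simp at hFGn; omega
  have hmonic : (F + C t * G).integralNormalization.Monic := monic_integralNormalization hFG0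
  rw [Monic.irreducible_iff_irreducible_map_fraction_map (K := ℚ) hmonic] at hirrt
  have hlc0 : (algebraMap ℤ ℚ) (F + C t * G).leadingCoeff ≠ 0 := by
    rw [Ne, map_eq_zero_iff _ (algebraMap ℤ ℚ).injective_int]
    exact leadingCoeff_ne_zero.2 hFG0
  rw [← integralNormalization_map _ _ hlc0, irreducible_integralNormalization] at hirrt
  · exact hirrt
  · exact (Polynomial.map_ne_zero_iff (algebraMap ℤ ℚ).injective_int).2 hFG0

end Pool.Agent.Lib.Pc2475b
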