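import Mathlib
import Pool.Agent.Lib.Pc2475b.Good
import Pool.Agent.Lib.Pc2475b.Pencil

/-!
The main Diophantine statement.
-/

open Polynomial Finset

namespace Pool.Agent.Lib.Pc2475b

theorem coprime_aux {B G : ℤ[X]} (hB : Irreducible B) (hBd : 0 < B.natDegree)
    (hXG : ¬ X ∣ G) (hBG : ¬ B ∣ G) (k : ℕ) :
    IsCoprime ((X ^ k * B).map (Int.castRingHom ℚ)) (G.map (Int.castRingHom ℚ)) := by
  have hBprim : B.IsPrimitive := hB.isPrimitive (by omega)
  have hBirrQ : Irreducible (B.map (Int.castRingHom ℚ)) :=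
    (IsPrimitive.Int.irreducible_iff_irreducible_map_cast hBprim).1 hB
  have hFmap : (X ^ k * B).map (Int.castRingHom ℚ) = X ^ k * B.map (Int.castRingHom ℚ) := by simp
  rw [hFmap]
  apply IsCoprime.mul_left
  · apply IsCoprime.pow_left
    rw [irreducible_X.coprime_iff_not_dvd, X_dvd_iff, coeff_map]
    rw [X_dvd_iff] at hXG
    intro h
    exact hXG (by simpa using h)
  · rw [hBirrQ.coprime_iff_not_dvd]
    intro hdvd
    exact hBG ((IsPrimitive.Int.dvd_iff_map_cast_dvd_map_cast B G hBprim).2 hdvd)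

set_option maxHeartbeats 4000000 in
theorem exact_degree (n : ℕ) (hn : 0 < n) (ζ : ℝ) (hζ : Transcendental ℤ ζ) (w w' : ℝ)
    (hw' : 0 < w') (hww : w' < w)
    (h : ∃ X₀ : ℝ, ∀ Y : ℝ, X₀ ≤ Y → ∃ P : ℤ[X], P.natDegree ≤ n ∧ P.supNorm ≤ Y ∧
      0 < |aeval ζ P| ∧ |aeval ζ P| ≤ Y ^ (-w)) (X₁ : ℝ) :
    ∃ Y : ℝ, X₁ ≤ Y ∧ 1 ≤ Y ∧ ∃ P : ℤ[X], P.natDegree = n ∧ Irreducible P ∧ P.supNorm ≤ Y ∧
      0 < |aeval ζ P| ∧ |aeval ζ P| ≤ Y ^ (-w') := by
  classical
  set ι : ℤ →+* ℚ := Int.castRingHom ℚ with hι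
  have hιinj : Function.Injective ι := Int.cast_injective
  have hζ0 : ζ ≠ 0 := by
    rintro rfl
    exact hζ isAlgebraic_zero
  have hval0 : ∀ P : ℤ[X], P ≠ 0 → 0 < |aeval ζ P| := by
    intro P hP
    rw [abs_pos]
    intro h
    exact hP (transcendental_iff.1 hζ P h)
  -- parameters
  set η : ℝ := (w - w') / (2 * (1 + w')) with hη
  have hη0 : 0 < η := by
    apply div_pos <;> linarith
  have hηeq : η * (1 + w') = (w - w') / 2 := by
    rw [hη]; field_simp
  have hηw : η < w := by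
    have : η * 1 ≤ η * (1 + w') := by gcongr; linarith
    linarith
  set s : ℝ := w - η with hs
  have hs0 : 0 < s := by linarith
  have hsw : s < w := by linarith
  obtain ⟨q, hq⟩ := exists_nat_ge (4 / η)
  have hq0 : 0 < (q : ℝ) := lt_of_lt_of_le (by positivity) hq
  have hqη : 4 / (q : ℝ) ≤ η := by
    rw [div_le_iff₀ hq0]
    rw [div_le_iff₀ hη0] at hq
    linarith
  obtain ⟨M₀, hM₀⟩ := exists_irreducible_pencil n q hn
  set c : ℝ := 2 ^ n * (n + 1) with hc
  have hc1 : 1 ≤ c := by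
    rw [hc]
    have h1 : (1 : ℝ) ≤ 2 ^ n := one_le_pow₀ (by norm_num)
    have h2 : (1 : ℝ) ≤ (n : ℝ) + 1 := by
      have : (0 : ℝ) ≤ n := Nat.cast_nonneg n
      linarith
    nlinarith
  set l : ℝ := max 1 (max |ζ| |ζ|⁻¹) with hl
  have hl1 : 1 ≤ l := le_max_left _ _
  set L : ℝ := l ^ n with hL
  have hL1 : 1 ≤ L := one_le_pow₀ hl1
  set L' : ℝ := L * (1 + 16 * (2 * c) ^ w) with hL'
  have hL'0 : 0 < L' := by positivity
  obtain ⟨X₀, hX₀⟩ := h
  -- choice of the height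
  have hlim : Filter.Tendsto (fun y : ℝ => y ^ ((w - w') / 2)) Filter.atTop Filter.atTop :=
    tendsto_rpow_atTop (by linarith)
  have hev := (hlim.eventually_ge_atTop (L' * 32 ^ w')).and
    ((Filter.eventually_ge_atTop (2 * c * X₀)).and
    ((Filter.eventually_ge_atTop (1 : ℝ)).and
    ((Filter.eventually_ge_atTop ((M₀ : ℝ) ^ q)).and (Filter.eventually_ge_atTop X₁))))
  obtain ⟨H₀, hH₀⟩ := Filter.eventually_atTop.1 hev
  obtain ⟨B, hBirr, hBd0, hBdn, hBH, hBval⟩ :=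
    exists_good_irreducible n ζ hζ w s hs0 hsw ⟨X₀, hX₀⟩ H₀
  obtain ⟨h1, h2, h3, h4, h5⟩ := hH₀ _ hBH
  set y : ℝ := B.supNorm with hy
  have hy0 : 0 < y := by linarith
  have hB0 : B ≠ 0 := hBirr.ne_zero
  -- the second polynomial
  obtain ⟨P₀, hP₀n, hP₀s, hP₀0, hP₀v⟩ := hX₀ (y / (2 * c)) (by
    rw [le_div_iff₀ (by positivity)]; linarith)
  have hP₀ne : P₀ ≠ 0 := by
    rintro rfl
    simp at hP₀0
  have hP₀s2 : c * P₀.supNorm < y := by
    have : c * (y / (2 * c)) = y / 2 := by field_simp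
    have h6 : c * P₀.supNorm ≤ c * (y / (2 * c)) := by gcongr
    linarith
  have hBP₀ : ¬ B ∣ P₀ := by
    rintro ⟨Q, hQ⟩
    have h6 := supNorm_le_of_mul (A := B) (B := Q) (n := n) (by rw [← hQ]; exact hP₀ne)
      (by rw [← hQ]; exact hP₀n)
    rw [← hQ] at h6
    linarith
  obtain ⟨j, G, hXG, hPG⟩ := WfDvdMonoid.max_power_factor hP₀ne (irreducible_X (R := ℤ))
  have hGne : G ≠ 0 := by
    rintro rfl
    exact hXG (dvd_zero _)
  have hjn : j + G.natDegree ≤ n := by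
    rw [hPG, natDegree_mul (pow_ne_zero _ X_ne_zero) hGne, natDegree_X_pow] at hP₀n
    exact hP₀n
  have hGs : G.supNorm ≤ y := by
    have h6 := supNorm_le_of_mul (A := G) (B := X ^ j) (n := n)
      (by rw [mul_comm, ← hPG]; exact hP₀ne) (by rw [mul_comm, ← hPG]; exact hP₀n)
    rw [mul_comm G, ← hPG] at h6
    linarith
  have hGval : |aeval ζ G| ≤ L * |aeval ζ P₀| := by
    have h6 : aeval ζ P₀ = ζ ^ j * aeval ζ G := by rw [hPG]; simp
    have h7 : (|ζ|⁻¹) ^ j ≤ L := by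
      calc (|ζ|⁻¹) ^ j ≤ l ^ j := by
            gcongr
            exact (le_max_right _ _).trans (le_max_right _ _)
        _ ≤ l ^ n := pow_le_pow_right₀ hl1 (by omega)
    have h8 : |aeval ζ G| = (|ζ|⁻¹) ^ j * |aeval ζ P₀| := by
      rw [h6, abs_mul, abs_pow, ← mul_assoc, ← mul_pow, inv_mul_cancel₀ (abs_ne_zero.2 hζ0)]
      simp
    rw [h8]
    gcongr
  have hBG : ¬ B ∣ G := fun h => hBP₀ (by rw [hPG]; exact h.mul_left _)
  -- the first polynomial
  set F : ℤ[X] := X ^ (n - B.natDegree) * B with hF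
  have hFn : F.natDegree = n := by
    rw [hF, natDegree_mul (pow_ne_zero _ X_ne_zero) hB0, natDegree_X_pow]
    omega
  have hFc : ∀ i, ‖F.coeff i‖ ≤ y := by
    intro i
    rw [hF, coeff_X_pow_mul']
    split_ifs
    · exact B.le_supNorm _
    · simp only [norm_zero]; exact hy0.le
  have hFval : |aeval ζ F| ≤ L * |aeval ζ B| := by
    rw [hF, map_mul, abs_mul, map_pow, aeval_X, abs_pow]
    gcongr
    calc |ζ| ^ (n - B.natDegree) ≤ l ^ (n - B.natDegree) := by
          gcongr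
          exact (le_max_left _ _).trans (le_max_right _ _)
      _ ≤ l ^ n := pow_le_pow_right₀ hl1 (by omega)
  -- coprimality
  have hcop : IsCoprime (F.map ι) (G.map ι) := coprime_aux hBirr hBd0 hXG hBG _
  -- the parameter
  set x : ℝ := y ^ ((1 : ℝ) / q) with hx
  have hx1 : 1 ≤ x := Real.one_le_rpow h3 (by positivity)
  set M : ℕ := ⌈x⌉₊ with hM
  have hxM : x ≤ M := Nat.le_ceil x
  have hM2 : (M : ℝ) ≤ 2 * x := by
    have := Nat.ceil_lt_add_one (by linarith : 0 ≤ x)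
    linarith
  have hqne : (q : ℝ) ≠ 0 := hq0.ne'
  have hxq : x ^ q = y := by
    rw [hx, ← Real.rpow_natCast, ← Real.rpow_mul hy0.le, one_div, inv_mul_cancel₀ hqne,
      Real.rpow_one]
  have hyM : y ≤ (M : ℝ) ^ q := by
    rw [← hxq]
    gcongr
  have hx4 : x ^ 4 ≤ y ^ η := by
    rw [hx, ← Real.rpow_natCast, ← Real.rpow_mul hy0.le]
    apply Real.rpow_le_rpow_of_exponent_le h3
    calc 1 / (q : ℝ) * ((4 : ℕ) : ℝ) = 4 / q := by push_cast; ring
      _ ≤ η := hqη
  have hM4 : (M : ℝ) ^ 4 ≤ 16 * y ^ η := by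
    calc (M : ℝ) ^ 4 ≤ (2 * x) ^ 4 := by gcongr
      _ = 16 * x ^ 4 := by ring
      _ ≤ 16 * y ^ η := by gcongr
  have hMM₀ : M₀ ≤ M := by
    have h6 : (M₀ : ℝ) ^ q ≤ x ^ q := by rw [hxq]; exact h4
    have hqn : q ≠ 0 := by
      intro h; rw [h] at hq0; simp at hq0
    have h7 : (M₀ : ℝ) ≤ x := (pow_le_pow_iff_left₀ (by positivity) (by linarith) hqn).1 h6
    exact_mod_cast h7.trans hxM
  obtain ⟨t, ht1, ht2, htn, htirr⟩ := hM₀ M hMM₀ F G hFn (by omega) hcop
    (by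
      intro i
      have h6 := (hFc i).trans hyM
      rw [Int.norm_eq_abs] at h6
      exact_mod_cast h6)
    (by
      intro i
      have h6 := ((G.le_supNorm i).trans hGs).trans hyM
      rw [Int.norm_eq_abs] at h6
      exact_mod_cast h6)
  have htR1 : (1 : ℝ) ≤ t := by exact_mod_cast ht1
  have htR2 : (t : ℝ) ≤ (M : ℝ) ^ 4 := by exact_mod_cast ht2
  set R : ℤ[X] := F + C t * G with hR
  have hRne : R ≠ 0 := by
    intro h
    rw [h] at htn
    simp at htn
    omega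
  set P : ℤ[X] := R.primPart with hP
  have hRP : R = C R.content * P := R.eq_C_content_mul_primPart
  have hcontne : R.content ≠ 0 := by rw [Ne, content_eq_zero_iff]; exact hRne
  have hcont1 : (1 : ℝ) ≤ |(R.content : ℝ)| := by exact_mod_cast Int.one_le_abs hcontne
  have hPne : P ≠ 0 := R.isPrimitive_primPart.ne_zero
  -- bounds for R
  have hRc : ∀ i, ‖R.coeff i‖ ≤ 32 * y ^ (1 + η) := by
    intro i
    have h6 : ‖R.coeff i‖ ≤ ‖F.coeff i‖ + ‖(t : ℤ)‖ * ‖G.coeff i‖ := by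
      rw [hR, coeff_add, coeff_C_mul, ← norm_mul]
      exact norm_add_le _ _
    have h7 : ‖(t : ℤ)‖ ≤ (M : ℝ) ^ 4 := by
      rw [Int.norm_eq_abs, abs_of_nonneg (by linarith)]
      exact htR2
    have h8 := hFc i
    have h9 := (G.le_supNorm i).trans hGs
    have hM41 : (1 : ℝ) ≤ (M : ℝ) ^ 4 := htR1.trans htR2
    calc ‖R.coeff i‖ ≤ y + (M : ℝ) ^ 4 * y := by
          refine h6.trans ?_
          gcongr
      _ ≤ (M : ℝ) ^ 4 * y + (M : ℝ) ^ 4 * y := by nlinarith
      _ = 2 * (M : ℝ) ^ 4 * y := by ring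
      _ ≤ 2 * (16 * y ^ η) * y := by gcongr
      _ = 32 * (y ^ (1 : ℝ) * y ^ η) := by rw [Real.rpow_one]; ring
      _ = 32 * y ^ (1 + η) := by rw [← Real.rpow_add hy0]
  have hRval : |aeval ζ R| ≤ L' * y ^ (-s) := by
    have h6 : |aeval ζ R| ≤ |aeval ζ F| + t * |aeval ζ G| := by
      rw [hR, map_add (aeval ζ) F (C t * G), map_mul (aeval ζ) (C t) G, aeval_C,
        algebraMap_int_eq, eq_intCast]
      refine (abs_add_le _ _).trans ?_
      rw [abs_mul, abs_of_nonneg (by linarith : (0 : ℝ) ≤ t)]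
    have h7 : |aeval ζ P₀| ≤ (2 * c) ^ w * y ^ (-w) := by
      refine hP₀v.trans (le_of_eq ?_)
      rw [div_eq_mul_inv, Real.mul_rpow hy0.le (by positivity), Real.inv_rpow (by positivity),
        ← Real.rpow_neg (by positivity), neg_neg]
      ring
    have h8 : y ^ η * y ^ (-w) = y ^ (-s) := by
      rw [← Real.rpow_add hy0]
      congr 1
      rw [hs]; ring
    calc |aeval ζ R| ≤ L * y ^ (-s) + (16 * y ^ η) * (L * ((2 * c) ^ w * y ^ (-w))) := by
          refine h6.trans ?_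
          gcongr
          · refine hFval.trans ?_
            gcongr
          · exact htR2.trans hM4
          · refine hGval.trans ?_
            gcongr
      _ = L * (1 + 16 * (2 * c) ^ w) * y ^ (-s) := by
          rw [← h8]
          have h9 : y ^ η * y ^ (-w) = y ^ η * y ^ (-w) := rfl
          ring
      _ = L' * y ^ (-s) := by rw [hL']
  refine ⟨32 * y ^ (1 + η), ?_, ?_, P, ?_, ?_, ?_, hval0 P hPne, ?_⟩
  · have h6 : y ≤ y ^ (1 + η) := by
      conv_lhs => rw [← Real.rpow_one y]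
      exact Real.rpow_le_rpow_of_exponent_le h3 (by linarith)
    linarith
  · have h6 : 1 ≤ y ^ (1 + η) := Real.one_le_rpow h3 (by linarith)
    linarith
  · rw [hP, natDegree_primPart, htn]
  · rw [IsPrimitive.Int.irreducible_iff_irreducible_map_cast R.isPrimitive_primPart]
    have h6 : R.map ι = C (ι R.content) * P.map ι := by
      conv_lhs => rw [hRP]
      simp
    have h7 : IsUnit (C (ι R.content)) := by
      rw [isUnit_C, isUnit_iff_ne_zero, Ne, map_eq_zero_iff ι hιinj]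
      exact hcontne
    rw [h6, irreducible_isUnit_mul h7] at htirr
    exact htirr
  · obtain ⟨i, hi⟩ := P.exists_eq_supNorm
    rw [hi]
    refine le_trans ?_ (hRc i)
    conv_rhs => rw [hRP, coeff_C_mul, norm_mul]
    have h6 : (1 : ℝ) ≤ ‖R.content‖ := by rw [Int.norm_eq_abs]; exact hcont1
    exact le_mul_of_one_le_left (norm_nonneg _) h6
  · have h6 : |aeval ζ P| ≤ |aeval ζ R| := by
      conv_rhs => rw [hRP, map_mul, aeval_C, algebraMap_int_eq, eq_intCast, abs_mul]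
      exact le_mul_of_one_le_left (abs_nonneg _) hcont1
    refine (h6.trans hRval).trans ?_
    rw [Real.mul_rpow (by norm_num) (by positivity), ← Real.rpow_mul hy0.le]
    have h7 : L' * 32 ^ w' * y ^ (-s) ≤ y ^ ((w - w') / 2) * y ^ (-s) := by gcongr
    rw [← Real.rpow_add hy0] at h7
    have h8 : (w - w') / 2 + -s = (1 + η) * (-w') := by
      rw [hs]; linarith
    rw [h8] at h7
    have h9 : (32 : ℝ) ^ (-w') * 32 ^ w' = 1 := by
      rw [← Real.rpow_add (by norm_num)]; simp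
    calc L' * y ^ (-s) = 32 ^ (-w') * (L' * 32 ^ w' * y ^ (-s)) := by
          linear_combination (-(L' * y ^ (-s))) * h9
      _ ≤ 32 ^ (-w') * y ^ ((1 + η) * -w') := by gcongr

end Pool.Agent.Lib.Pc2475b
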